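import Mathlib

/-! Shadows, degrees, and the cleaning lemma. -/

namespace Pool.Agent.TH471.KT

open Finset

section rich
variable {E Λ : Type*} [DecidableEq E] [DecidableEq Λ]

/-- A minimal subfamily with a given edge/label ratio has all label degrees large. -/
lemma exists_rich (lab : E → Finset Λ) (a : ℝ) (ha : 0 ≤ a) (G : Finset E)
    (h : a * ((G.biUnion lab).card : ℝ) < (G.card : ℝ)) :
    ∃ G' ⊆ G, a * ((G'.biUnion lab).card : ℝ) < (G'.card : ℝ) ∧
      ∀ l ∈ G'.biUnion lab, a < ((G'.filter (fun e => l ∈ lab e)).card : ℝ) := by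
  classical
  obtain ⟨G', hG', hmin⟩ := exists_min_image
    (G.powerset.filter (fun G' => a * ((G'.biUnion lab).card : ℝ) < (G'.card : ℝ))) card
    ⟨G, by simp [h]⟩
  rw [mem_filter, mem_powerset] at hG'
  refine ⟨G', hG'.1, hG'.2, ?_⟩
  intro l hl
  by_contra hcon
  push Not at hcon
  set G'' := G'.filter (fun e => l ∉ lab e) with hG''
  have hcard : (G'.filter (fun e => l ∈ lab e)).card + G''.card = G'.card := by
    rw [hG'']; exact card_filter_add_card_filter_not _
  have hpos : 0 < (G'.filter (fun e => l ∈ lab e)).card := by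
    rw [mem_biUnion] at hl
    obtain ⟨e, he, hle⟩ := hl
    exact card_pos.mpr ⟨e, by simp [he, hle]⟩
  have hsub : G''.biUnion lab ⊆ (G'.biUnion lab).erase l := by
    intro m hm
    rw [mem_biUnion] at hm
    obtain ⟨e, he, hme⟩ := hm
    rw [hG'', mem_filter] at he
    rw [mem_erase, mem_biUnion]
    refine ⟨?_, e, he.1, hme⟩
    rintro rfl
    exact he.2 hme
  have hle1 : ((G''.biUnion lab).card : ℝ) ≤ ((G'.biUnion lab).card : ℝ) - 1 := by
    have h1 := card_le_card hsub
    rw [card_erase_of_mem hl] at h1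
    have h2 : 1 ≤ (G'.biUnion lab).card := card_pos.mpr ⟨l, hl⟩
    have h3 : (G''.biUnion lab).card + 1 ≤ (G'.biUnion lab).card := by omega
    have h4 : ((G''.biUnion lab).card : ℝ) + 1 ≤ ((G'.biUnion lab).card : ℝ) := by
      exact_mod_cast h3
    linarith
  have hc : ((G'.filter (fun e => l ∈ lab e)).card : ℝ) + (G''.card : ℝ) = (G'.card : ℝ) := by
    exact_mod_cast hcard
  have hgood : a * ((G''.biUnion lab).card : ℝ) < (G''.card : ℝ) := by
    have h5 : a * ((G''.biUnion lab).card : ℝ) ≤ a * (((G'.biUnion lab).card : ℝ) - 1) :=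
      mul_le_mul_of_nonneg_left hle1 ha
    have h6 := hG'.2
    nlinarith
  have hmem : G'' ∈ G.powerset.filter
      (fun G' => a * ((G'.biUnion lab).card : ℝ) < (G'.card : ℝ)) := by
    rw [mem_filter, mem_powerset]
    exact ⟨(filter_subset _ _).trans hG'.1, hgood⟩
  have := hmin G'' hmem
  omega

end rich

section shadow
variable {V : Type*} [DecidableEq V]

/-- The shadow of a single edge. -/
def sh (e : Finset V) : Finset (Finset V) := e.image (fun v => e.erase v)

/-- The shadow of a family. -/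
def SH (H : Finset (Finset V)) : Finset (Finset V) := H.biUnion sh

/-- The degree of a set in a family. -/
def dg (H : Finset (Finset V)) (f : Finset V) : ℕ := (H.filter (fun e => f ∈ sh e)).card

lemma mem_sh {e f : Finset V} : f ∈ sh e ↔ ∃ v ∈ e, e.erase v = f := by
  simp [sh]

lemma erase_mem_sh {e : Finset V} {v : V} (hv : v ∈ e) : e.erase v ∈ sh e :=
  mem_sh.2 ⟨v, hv, rfl⟩

lemma mem_sh_iff_insert {e f : Finset V} : f ∈ sh e ↔ ∃ x, x ∉ f ∧ insert x f = e := by
  rw [mem_sh]
  constructor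
  · rintro ⟨v, hv, rfl⟩
    exact ⟨v, by simp, insert_erase hv⟩
  · rintro ⟨x, hx, rfl⟩
    exact ⟨x, by simp, by rw [erase_insert hx]⟩

lemma erase_injOn (e : Finset V) : Set.InjOn (fun v => e.erase v) (e : Set V) := by
  intro a ha b hb hab
  by_contra hne
  have h1 : a ∈ e.erase b := mem_erase.2 ⟨hne, ha⟩
  have h2 : a ∈ e.erase a := by
    have : e.erase a = e.erase b := hab
    rw [this]; exact h1
  simp at h2

lemma card_sh (e : Finset V) : (sh e).card = e.card :=
  card_image_of_injOn (erase_injOn e)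

lemma sum_sh {M : Type*} [AddCommMonoid M] (e : Finset V) (F : Finset V → M) :
    ∑ f ∈ sh e, F f = ∑ v ∈ e, F (e.erase v) := by
  unfold sh
  exact sum_image (fun a ha b hb hab => erase_injOn e ha hb hab)

lemma mem_SH {H : Finset (Finset V)} {f : Finset V} : f ∈ SH H ↔ ∃ e ∈ H, f ∈ sh e := by
  simp [SH]

lemma SH_eq_shadow (H : Finset (Finset V)) : SH H = H.shadow := by
  ext f
  rw [mem_SH, mem_shadow_iff]
  constructor
  · rintro ⟨e, he, hf⟩
    obtain ⟨v, hv, rfl⟩ := mem_sh.1 hf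
    exact ⟨e, he, v, hv, rfl⟩
  · rintro ⟨e, he, v, hv, rfl⟩
    exact ⟨e, he, erase_mem_sh hv⟩

/-- double counting of incidences between a subfamily and the shadow. -/
lemma double_count (H A : Finset (Finset V)) (hA : A ⊆ H) (F : Finset V → Finset V → ℝ) :
    ∑ e ∈ A, ∑ f ∈ sh e, F e f
      = ∑ f ∈ SH H, ∑ e ∈ A.filter (fun e => f ∈ sh e), F e f := by
  apply sum_comm'
  intro e f
  simp only [mem_filter]
  constructor
  · rintro ⟨he, hf⟩
    exact ⟨⟨he, hf⟩, mem_SH.2 ⟨e, hA he, hf⟩⟩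
  · rintro ⟨⟨he, hf⟩, -⟩
    exact ⟨he, hf⟩

lemma dg_pos {H : Finset (Finset V)} {f : Finset V} (hf : f ∈ SH H) : 0 < dg H f := by
  obtain ⟨e, he, hfe⟩ := mem_SH.1 hf
  exact card_pos.mpr ⟨e, by simp [he, hfe]⟩

lemma sum_inv_dg (H : Finset (Finset V)) :
    ∑ e ∈ H, ∑ f ∈ sh e, (1 : ℝ) / (dg H f : ℝ) = ((SH H).card : ℝ) := by
  rw [double_count H H (Subset.refl _) (fun _ f => (1 : ℝ) / (dg H f : ℝ))]
  rw [card_eq_sum_ones, Nat.cast_sum]
  apply sum_congr rfl
  intro f hf
  have hpos := dg_pos hf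
  rw [sum_const, nsmul_eq_mul]
  have : ((H.filter (fun e => f ∈ sh e)).card : ℝ) = (dg H f : ℝ) := rfl
  rw [this]
  have h0 : (dg H f : ℝ) ≠ 0 := by positivity
  field_simp
  simp

end shadow

end Pool.Agent.TH471.KT
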