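import Pool.Agent.TH471.KT.Count

/-! The cleaned family of labelled good edges. -/

namespace Pool.Agent.TH471.KT

open Finset
open scoped Classical

variable {V : Type*} [DecidableEq V] [Fintype V]

omit [Fintype V] in
lemma card_of_mem_SH {H : Finset (Finset V)} {r : ℕ} (hH : ∀ e ∈ H, e.card = r)
    {f : Finset V} (hf : f ∈ SH H) : f.card = r - 1 := by
  obtain ⟨e, he, hfe⟩ := mem_SH.1 hf
  obtain ⟨v, hv, rfl⟩ := mem_sh.1 hfe
  rw [card_erase_of_mem hv, hH e he]

/-- the restriction of a labelling to `f` -/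
noncomputable def rst {r : ℕ} (z : Fin r) (π : V → Fin r) (f : Finset V) : V → Fin r :=
  fun v => if v ∈ f then π v else z

/-- labels of an edge: exceptional shadows with restricted labelling -/
noncomputable def labS {r : ℕ} (z : Fin r) (π : Finset V → V → Fin r) (Z : Finset (Finset V))
    (e : Finset V) : Finset (Finset V × (V → Fin r)) :=
  ((sh e).filter (fun f => f ∈ Z)).image (fun f => (f, rst z (π e) f))

lemma card_labS {r : ℕ} (z : Fin r) (π : Finset V → V → Fin r) (Z G : Finset (Finset V))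
    (hZ : ∀ f ∈ Z, f.card = r - 1) :
    (G.biUnion (labS z π Z)).card ≤ Z.card * r ^ (r - 1) := by
  have hsub : G.biUnion (labS z π Z) ⊆ Z.biUnion (fun f => ({f} : Finset (Finset V)) ×ˢ
      Fintype.piFinset (fun v => if v ∈ f then (univ : Finset (Fin r)) else {z})) := by
    intro l hl
    rw [mem_biUnion] at hl
    obtain ⟨e, -, hl⟩ := hl
    unfold labS at hl
    rw [mem_image] at hl
    obtain ⟨f, hf, rfl⟩ := hl
    rw [mem_filter] at hf
    rw [mem_biUnion]
    refine ⟨f, hf.2, ?_⟩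
    rw [mem_product]
    refine ⟨by simp, ?_⟩
    rw [Fintype.mem_piFinset]
    intro v
    unfold rst
    by_cases hv : v ∈ f
    · simp [hv]
    · simp [hv]
  refine (card_le_card hsub).trans ?_
  apply card_biUnion_le_card_mul
  intro f hf
  rw [card_product, card_singleton, one_mul, Fintype.card_piFinset]
  apply le_of_eq
  rw [← hZ f hf]
  have : ∀ v : V, (if v ∈ f then (univ : Finset (Fin r)) else {z}).card
      = if v ∈ f then r else 1 := by
    intro v
    by_cases hv : v ∈ f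
    · simp [hv]
    · simp [hv]
  rw [prod_congr rfl (fun v _ => this v)]
  rw [prod_ite_mem, univ_inter, prod_const]

theorem exists_core {H : Finset (Finset V)} {r N M c : ℕ} {C lam : ℝ} (hr : 0 < r)
    (hM : 4 * r * M ≤ N) (hM2 : 8 * r ^ 2 * M ≤ N) (hN : 0 < N)
    (hC : 0 < C) (hCN : C ≤ r * N) (hH : ∀ e ∈ H, e.card = r)
    (h1 : (N : ℝ) * ((SH H).card : ℝ) < r * (H.card : ℝ))
    (h2 : ∀ f ∈ SH H, N < r * dg H f) (hlam : 0 < lam) (hlam1 : lam < 1)
    (hnum : (M : ℝ) * (r : ℝ) ^ (r - 1) * (12 * (r : ℝ) ^ 2 / N + 12 * (r : ℝ) ^ 2 / C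
      + 8 * (r : ℝ) ^ 3 / ((1 - lam) * N)) < 1) :
    ∃ (G : Finset (Finset V)) (π : Finset V → V → Fin r), G.Nonempty ∧ G ⊆ H ∧
      (∀ e ∈ G, Valid H r N C (π e) e) ∧
      ∀ e ∈ G, ∀ f ∈ sh e, f ∈ ZS H N lam M c →
        M < (cons G π e f).card := by
  have hrR : (0 : ℝ) < r := by exact_mod_cast hr
  have hNR : (0 : ℝ) < N := by exact_mod_cast hN
  -- choose labellings
  have hch : ∀ e : Finset V, ∃ π : V → Fin r, e ∈ GoodS H r N C → Valid H r N C π e := by
    intro e
    by_cases he : e ∈ GoodS H r N C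
    · obtain ⟨π, hπ⟩ := (mem_GoodS.1 he).2
      exact ⟨π, fun _ => hπ⟩
    · exact ⟨fun _ => ⟨0, hr⟩, fun h => absurd h he⟩
  choose π hπ using hch
  -- positivity of the number of good edges
  have hg : (0 : ℝ) < ((GoodS H r N C).card : ℝ) := by
    have h6 := total_loss (C := C) hN h1
    have h7 : 0 ≤ ∑ e ∈ ThinS H r N C, loss H r N e := by
      apply sum_nonneg
      intro e he
      refine le_trans ?_ (thin_loss_nonneg hr hN hC.le hH he)
      apply sum_nonneg
      intro f _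
      positivity
    have h8 : 0 ≤ ∑ e ∈ FlatS H r N C, loss H r N e := by
      apply sum_nonneg
      intro e he
      rw [loss_eq (hH e (FlatS_sub H r N C he))]
      exact sum_nonneg (flat_loss_nonneg he)
    have h9 : 0 < (r : ℝ) / N * ((GoodS H r N C).card : ℝ) := by linarith
    by_contra hle
    push Not at hle
    have : (r : ℝ) / N * ((GoodS H r N C).card : ℝ) ≤ 0 :=
      mul_nonpos_of_nonneg_of_nonpos (by positivity) hle
    linarith
  have hZS := card_ZS (C := C) hr hM hM2 hN hC hCN hH h1 h2 hlam hlam1 c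
  have hZmem : ∀ f ∈ ZS H N lam M c, f ∈ SH H := fun f hf => ZS_sub N lam M c hf
  have hlab := card_labS (⟨0, hr⟩ : Fin r) π (ZS H N lam M c) (GoodS H r N C)
    (fun f hf => card_of_mem_SH hH (hZmem f hf))
  have hlabR : (((GoodS H r N C).biUnion (labS (⟨0, hr⟩ : Fin r) π (ZS H N lam M c))).card : ℝ)
      ≤ ((ZS H N lam M c).card : ℝ) * (r : ℝ) ^ (r - 1) := by exact_mod_cast hlab
  have hkey : (M : ℝ) * (((GoodS H r N C).biUnion
      (labS (⟨0, hr⟩ : Fin r) π (ZS H N lam M c))).card : ℝ) < ((GoodS H r N C).card : ℝ) := by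
    set g := ((GoodS H r N C).card : ℝ)
    set κ := (12 * (r : ℝ) ^ 2 / N + 12 * (r : ℝ) ^ 2 / C + 8 * (r : ℝ) ^ 3 / ((1 - lam) * N))
    have h3 : (M : ℝ) * (((GoodS H r N C).biUnion
        (labS (⟨0, hr⟩ : Fin r) π (ZS H N lam M c))).card : ℝ)
        ≤ M * (((ZS H N lam M c).card : ℝ) * (r : ℝ) ^ (r - 1)) :=
      mul_le_mul_of_nonneg_left hlabR (by positivity)
    have h4 : (M : ℝ) * (((ZS H N lam M c).card : ℝ) * (r : ℝ) ^ (r - 1))
        ≤ (M * (r : ℝ) ^ (r - 1)) * (κ * g) := by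
      have h5 : (M : ℝ) * (((ZS H N lam M c).card : ℝ) * (r : ℝ) ^ (r - 1))
          = (M * (r : ℝ) ^ (r - 1)) * ((ZS H N lam M c).card : ℝ) := by ring
      rw [h5]
      exact mul_le_mul_of_nonneg_left hZS (by positivity)
    have h5 : (M * (r : ℝ) ^ (r - 1)) * (κ * g) = ((M : ℝ) * (r : ℝ) ^ (r - 1) * κ) * g := by ring
    have h6 : ((M : ℝ) * (r : ℝ) ^ (r - 1) * κ) * g < 1 * g :=
      mul_lt_mul_of_pos_right hnum hg
    linarith
  obtain ⟨G', hG', hcard, hrich⟩ := exists_rich (labS (⟨0, hr⟩ : Fin r) π (ZS H N lam M c))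
    (M : ℝ) (by positivity) (GoodS H r N C) hkey
  refine ⟨G', π, ?_, fun e he => (mem_GoodS.1 (hG' he)).1, fun e he => hπ e (hG' he), ?_⟩
  · rw [← card_pos]
    have : (0 : ℝ) < (G'.card : ℝ) := lt_of_le_of_lt (by positivity) hcard
    exact_mod_cast this
  · intro e he f hf hfZ
    have hl : (f, rst ⟨0, hr⟩ (π e) f) ∈ G'.biUnion (labS (⟨0, hr⟩ : Fin r) π (ZS H N lam M c)) := by
      rw [mem_biUnion]
      refine ⟨e, he, ?_⟩
      unfold labS
      rw [mem_image]
      exact ⟨f, by rw [mem_filter]; exact ⟨hf, hfZ⟩, rfl⟩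
    have h3 := hrich _ hl
    have h4 : M < (G'.filter (fun e' => (f, rst ⟨0, hr⟩ (π e) f) ∈
        labS (⟨0, hr⟩ : Fin r) π (ZS H N lam M c) e')).card := by exact_mod_cast h3
    refine lt_of_lt_of_le h4 (card_le_card ?_)
    intro e' he'
    rw [mem_filter] at he'
    rw [mem_cons]
    refine ⟨he'.1, ?_⟩
    have h5 := he'.2
    unfold labS at h5
    rw [mem_image] at h5
    obtain ⟨f', hf', heq⟩ := h5
    rw [Prod.mk.injEq] at heq
    obtain ⟨rfl, heq2⟩ := heq
    refine ⟨(mem_filter.1 hf').1, ?_⟩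
    intro v hv
    have h6 := congrFun heq2 v
    unfold rst at h6
    simpa [hv] using h6

end Pool.Agent.TH471.KT
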