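import Pool.Agent.TH471.KT.Loss

/-! Counting: few exceptional shadows compared with the number of good edges. -/

namespace Pool.Agent.TH471.KT

open Finset
open scoped Classical

variable {V : Type*} [DecidableEq V]

noncomputable def GoodS (H : Finset (Finset V)) (r N : ℕ) (C : ℝ) : Finset (Finset V) :=
  H.filter (fun e => Good H r N C e)

noncomputable def ThinS (H : Finset (Finset V)) (r N : ℕ) (C : ℝ) : Finset (Finset V) :=
  H.filter (fun e => ¬ Good H r N C e ∧ ∃ f ∈ sh e, N < dg H f)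

noncomputable def FlatS (H : Finset (Finset V)) (r N : ℕ) (C : ℝ) : Finset (Finset V) :=
  H.filter (fun e => ¬ Good H r N C e ∧ ∀ f ∈ sh e, dg H f ≤ N)

lemma mem_GoodS {H : Finset (Finset V)} {r N : ℕ} {C : ℝ} {e : Finset V} :
    e ∈ GoodS H r N C ↔ e ∈ H ∧ Good H r N C e := by
  unfold GoodS; rw [mem_filter]

/-- the edges of `G` at `f` whose labelling agrees on `f` with that of `e` -/
noncomputable def cons {r : ℕ} (G : Finset (Finset V)) (π : Finset V → V → Fin r)
    (e f : Finset V) : Finset (Finset V) :=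
  G.filter (fun e' => f ∈ sh e' ∧ ∀ v ∈ f, π e' v = π e v)

lemma mem_cons {r : ℕ} {G : Finset (Finset V)} {π : Finset V → V → Fin r}
    {e f e' : Finset V} : e' ∈ cons G π e f ↔ e' ∈ G ∧ f ∈ sh e' ∧ ∀ v ∈ f, π e' v = π e v := by
  unfold cons; rw [mem_filter]

lemma FlatS_sub (H : Finset (Finset V)) (r N : ℕ) (C : ℝ) : FlatS H r N C ⊆ H :=
  filter_subset _ _

/-- number of edges of `A` at `f`. -/
def inc (A : Finset (Finset V)) (f : Finset V) : ℕ := (A.filter (fun e => f ∈ sh e)).card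

lemma sum_inc {H A : Finset (Finset V)} (hA : A ⊆ H) {r : ℕ} (hr : ∀ e ∈ H, e.card = r) :
    ∑ f ∈ SH H, (inc A f : ℝ) = r * (A.card : ℝ) := by
  have h := double_count H A hA (fun _ _ => (1 : ℝ))
  have h1 : ∑ e ∈ A, ∑ f ∈ sh e, (1 : ℝ) = r * (A.card : ℝ) := by
    rw [sum_congr rfl (g := fun _ => (r : ℝ))]
    · rw [sum_const, nsmul_eq_mul]; ring
    · intro e he
      rw [sum_const, card_sh, hr e (hA he), nsmul_eq_mul, mul_one]
  rw [← h1, h]
  apply sum_congr rfl
  intro f _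
  rw [sum_const, nsmul_eq_mul, mul_one]
  rfl

lemma dg_split (H : Finset (Finset V)) (r N : ℕ) (C : ℝ) (f : Finset V) :
    dg H f = inc (GoodS H r N C) f + inc (ThinS H r N C) f + inc (FlatS H r N C) f := by
  unfold dg inc GoodS ThinS FlatS
  rw [filter_filter, filter_filter, filter_filter]
  have h1 : H.filter (fun e => f ∈ sh e) =
      (H.filter (fun e => Good H r N C e ∧ f ∈ sh e)) ∪
      ((H.filter (fun e => (¬ Good H r N C e ∧ ∃ f ∈ sh e, N < dg H f) ∧ f ∈ sh e)) ∪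
      (H.filter (fun e => (¬ Good H r N C e ∧ ∀ f ∈ sh e, dg H f ≤ N) ∧ f ∈ sh e))) := by
    ext e
    simp only [mem_union, mem_filter]
    constructor
    · rintro ⟨he, hf⟩
      by_cases hg : Good H r N C e
      · left; exact ⟨he, hg, hf⟩
      · right
        by_cases hb : ∃ f ∈ sh e, N < dg H f
        · left; exact ⟨he, ⟨hg, hb⟩, hf⟩
        · right
          push Not at hb
          exact ⟨he, ⟨hg, hb⟩, hf⟩
    · rintro (⟨he, -, hf⟩ | ⟨he, -, hf⟩ | ⟨he, -, hf⟩) <;> exact ⟨he, hf⟩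
  rw [h1, card_union_of_disjoint, card_union_of_disjoint, add_assoc]
  · rw [disjoint_left]
    intro e he he'
    rw [mem_filter] at he he'
    obtain ⟨f, hf, hfN⟩ := he.2.1.2
    have := he'.2.1.2 f hf
    omega
  · rw [disjoint_left]
    intro e he he'
    rw [mem_filter] at he
    rw [mem_union, mem_filter, mem_filter] at he'
    rcases he' with he' | he'
    · exact he'.2.1.1 he.2.1
    · exact he'.2.1.1 he.2.1

lemma sum_split (H : Finset (Finset V)) (r N : ℕ) (C : ℝ) (F : Finset V → ℝ) :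
    ∑ e ∈ H, F e = ∑ e ∈ GoodS H r N C, F e + ∑ e ∈ ThinS H r N C, F e
      + ∑ e ∈ FlatS H r N C, F e := by
  unfold GoodS ThinS FlatS
  rw [← sum_filter_add_sum_filter_not H (fun e => Good H r N C e) F, add_assoc]
  congr 1
  rw [← sum_filter_add_sum_filter_not (H.filter (fun e => ¬ Good H r N C e))
    (fun e => ∃ f ∈ sh e, N < dg H f) F, filter_filter, filter_filter]
  congr 1
  apply sum_congr _ (fun _ _ => rfl)
  ext e
  simp only [mem_filter]
  push Not
  rfl

section main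
variable {H : Finset (Finset V)} {r N : ℕ} {C : ℝ}

lemma flat_loss_nonneg {e : Finset V}
    (he : e ∈ FlatS H r N C) : ∀ f ∈ sh e, 0 ≤ (1 : ℝ) / (dg H f : ℝ) - 1 / N := by
  intro f hf
  unfold FlatS at he
  rw [mem_filter] at he
  have h1 := he.2.2 f hf
  have h2 : 0 < dg H f := dg_pos (mem_SH.2 ⟨e, he.1, hf⟩)
  have h3 : (dg H f : ℝ) ≤ N := by exact_mod_cast h1
  have h4 : (0 : ℝ) < dg H f := by exact_mod_cast h2
  have := one_div_le_one_div_of_le h4 h3
  linarith

lemma total_loss (hN : 0 < N)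
    (h1 : (N : ℝ) * ((SH H).card : ℝ) < r * (H.card : ℝ)) :
    ∑ e ∈ ThinS H r N C, loss H r N e + ∑ e ∈ FlatS H r N C, loss H r N e
      < (r : ℝ) / N * ((GoodS H r N C).card : ℝ) := by
  have hNR : (0 : ℝ) < N := by exact_mod_cast hN
  have h2 := sum_split H r N C (loss H r N)
  rw [sum_loss] at h2
  have h3 : ((SH H).card : ℝ) - (r : ℝ) / N * (H.card : ℝ) < 0 := by
    have : (r : ℝ) / N * (H.card : ℝ) = (r * (H.card : ℝ)) / N := by ring
    rw [this, sub_neg, lt_div_iff₀ hNR]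
    linarith
  have h4 : -((r : ℝ) / N * ((GoodS H r N C).card : ℝ)) ≤ ∑ e ∈ GoodS H r N C, loss H r N e := by
    have : ∑ e ∈ GoodS H r N C, -((r : ℝ) / N) ≤ ∑ e ∈ GoodS H r N C, loss H r N e :=
      sum_le_sum (fun e _ => loss_ge H r N e)
    rw [sum_const, nsmul_eq_mul] at this
    linarith
  linarith

lemma thin_loss_nonneg (hr : 0 < r) (hN : 0 < N) (hC : 0 ≤ C) (hH : ∀ e ∈ H, e.card = r)
    {e : Finset V} (he : e ∈ ThinS H r N C) :
    ∑ f ∈ sh e, min (C / (N : ℝ) ^ 2) ((1 : ℝ) / (dg H f : ℝ)) ≤ loss H r N e := by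
  unfold ThinS at he
  rw [mem_filter] at he
  exact thin_loss hr hN hC (hH e he.1) he.1 he.2.1 he.2.2

/-- shadows at which many edges are good -/
lemma card_Ygood (hN : 0 < N) (hH : ∀ e ∈ H, e.card = r) (h2 : ∀ f ∈ SH H, N < r * dg H f) :
    (N : ℝ) * (((SH H).filter (fun f => dg H f < 4 * inc (GoodS H r N C) f)).card : ℝ)
      ≤ 4 * (r : ℝ) ^ 2 * ((GoodS H r N C).card : ℝ) := by
  set Y := (SH H).filter (fun f => dg H f < 4 * inc (GoodS H r N C) f) with hY
  have h3 : ∑ f ∈ Y, (N : ℝ) ≤ ∑ f ∈ Y, 4 * (r : ℝ) * (inc (GoodS H r N C) f : ℝ) := by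
    apply sum_le_sum
    intro f hf
    rw [hY, mem_filter] at hf
    have h4 := h2 f hf.1
    have h5 : N ≤ r * (4 * inc (GoodS H r N C) f) := by
      calc N ≤ r * dg H f := h4.le
        _ ≤ r * (4 * inc (GoodS H r N C) f) := Nat.mul_le_mul_left _ hf.2.le
    have h6 : (N : ℝ) ≤ (r : ℝ) * (4 * (inc (GoodS H r N C) f : ℝ)) := by exact_mod_cast h5
    linarith
  have h4 : ∑ f ∈ Y, 4 * (r : ℝ) * (inc (GoodS H r N C) f : ℝ)
      ≤ ∑ f ∈ SH H, 4 * (r : ℝ) * (inc (GoodS H r N C) f : ℝ) := by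
    apply sum_le_sum_of_subset_of_nonneg (filter_subset _ _)
    intro f _ _
    positivity
  have hs := sum_inc (H := H) (A := GoodS H r N C) (filter_subset _ _) hH
  have h4e : ∑ f ∈ SH H, 4 * (r : ℝ) * (inc (GoodS H r N C) f : ℝ)
      = 4 * (r : ℝ) * (r * ((GoodS H r N C).card : ℝ)) := by rw [← mul_sum, hs]
  rw [h4e] at h4
  rw [sum_const, nsmul_eq_mul] at h3
  nlinarith

/-- shadows at which many edges are thin -/
lemma card_Ythin (hr : 0 < r) (hN : 0 < N) (hC : 0 < C) (hCN : C ≤ r * N)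
    (hH : ∀ e ∈ H, e.card = r) (h2 : ∀ f ∈ SH H, N < r * dg H f) :
    C / (4 * r * N) * (((SH H).filter (fun f => dg H f < 4 * inc (ThinS H r N C) f)).card : ℝ)
      ≤ ∑ e ∈ ThinS H r N C, loss H r N e := by
  set Y := (SH H).filter (fun f => dg H f < 4 * inc (ThinS H r N C) f) with hY
  have hrR : (0 : ℝ) < r := by exact_mod_cast hr
  have hNR : (0 : ℝ) < N := by exact_mod_cast hN
  have h3 : ∑ e ∈ ThinS H r N C, ∑ f ∈ sh e, min (C / (N : ℝ) ^ 2) ((1 : ℝ) / (dg H f : ℝ))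
      ≤ ∑ e ∈ ThinS H r N C, loss H r N e :=
    sum_le_sum (fun e he => thin_loss_nonneg hr hN hC.le hH he)
  refine le_trans ?_ h3
  rw [double_count H (ThinS H r N C) (filter_subset _ _)
    (fun _ f => min (C / (N : ℝ) ^ 2) ((1 : ℝ) / (dg H f : ℝ)))]
  have h4 : ∑ f ∈ Y, ∑ e ∈ (ThinS H r N C).filter (fun e => f ∈ sh e),
        min (C / (N : ℝ) ^ 2) ((1 : ℝ) / (dg H f : ℝ))
      ≤ ∑ f ∈ SH H, ∑ e ∈ (ThinS H r N C).filter (fun e => f ∈ sh e),
        min (C / (N : ℝ) ^ 2) ((1 : ℝ) / (dg H f : ℝ)) := by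
    apply sum_le_sum_of_subset_of_nonneg (filter_subset _ _)
    intro f _ _
    apply sum_nonneg
    intro e _
    positivity
  refine le_trans ?_ h4
  have h5 : ∑ f ∈ Y, C / (4 * r * N) ≤ ∑ f ∈ Y, ∑ e ∈ (ThinS H r N C).filter (fun e => f ∈ sh e),
        min (C / (N : ℝ) ^ 2) ((1 : ℝ) / (dg H f : ℝ)) := by
    apply sum_le_sum
    intro f hf
    rw [hY, mem_filter] at hf
    rw [sum_const, nsmul_eq_mul]
    have hd := dg_pos hf.1
    have hdR : (0 : ℝ) < dg H f := by exact_mod_cast hd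
    have h6 : (dg H f : ℝ) ≤ 4 * (inc (ThinS H r N C) f : ℝ) := by exact_mod_cast hf.2.le
    have h7 : (N : ℝ) ≤ r * (dg H f : ℝ) := by exact_mod_cast (h2 f hf.1).le
    have h8 : (((ThinS H r N C).filter (fun e => f ∈ sh e)).card : ℝ)
        = (inc (ThinS H r N C) f : ℝ) := rfl
    rw [h8]
    have h9 : (dg H f : ℝ) / 4 * min (C / (N : ℝ) ^ 2) ((1 : ℝ) / (dg H f : ℝ))
        ≤ (inc (ThinS H r N C) f : ℝ) * min (C / (N : ℝ) ^ 2) ((1 : ℝ) / (dg H f : ℝ)) := by
      apply mul_le_mul_of_nonneg_right _ (by positivity)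
      linarith
    refine le_trans ?_ h9
    rcases le_total (C / (N : ℝ) ^ 2) ((1 : ℝ) / (dg H f : ℝ)) with h | h
    · rw [min_eq_left h]
      have h10 : C / (4 * r * N) = (N : ℝ) / (4 * r) * (C / (N : ℝ) ^ 2) := by
        field_simp
      rw [h10]
      apply mul_le_mul_of_nonneg_right _ (by positivity)
      rw [div_le_div_iff₀ (by positivity) (by norm_num)]
      nlinarith
    · rw [min_eq_right h]
      have h10 : (dg H f : ℝ) / 4 * (1 / (dg H f : ℝ)) = 1 / 4 := by
        field_simp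
      rw [h10, div_le_div_iff₀ (by positivity) (by norm_num)]
      nlinarith
  rw [sum_const, nsmul_eq_mul] at h5
  linarith

/-- shadows at which at most half of the edges are flat -/
noncomputable def YS (H : Finset (Finset V)) (r N : ℕ) (C : ℝ) : Finset (Finset V) :=
  (SH H).filter (fun f => 2 * inc (FlatS H r N C) f < dg H f)

lemma card_YS (hr : 0 < r) (hN : 0 < N) (hC : 0 < C) (hCN : C ≤ r * N)
    (hH : ∀ e ∈ H, e.card = r) (h1 : (N : ℝ) * ((SH H).card : ℝ) < r * (H.card : ℝ))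
    (h2 : ∀ f ∈ SH H, N < r * dg H f) :
    ((YS H r N C).card : ℝ) ≤ (4 * (r : ℝ) ^ 2 / N + 4 * (r : ℝ) ^ 2 / C)
      * ((GoodS H r N C).card : ℝ) := by
  have hrR : (0 : ℝ) < r := by exact_mod_cast hr
  have hNR : (0 : ℝ) < N := by exact_mod_cast hN
  have hsub : YS H r N C ⊆ (SH H).filter (fun f => dg H f < 4 * inc (GoodS H r N C) f) ∪
      (SH H).filter (fun f => dg H f < 4 * inc (ThinS H r N C) f) := by
    intro f hf
    unfold YS at hf
    rw [mem_filter] at hf
    have := dg_split H r N C f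
    rw [mem_union, mem_filter, mem_filter]
    by_cases h : dg H f < 4 * inc (GoodS H r N C) f
    · left; exact ⟨hf.1, h⟩
    · right
      refine ⟨hf.1, ?_⟩
      omega
  have h3 := (card_le_card hsub).trans (card_union_le _ _)
  have h3' : ((YS H r N C).card : ℝ) ≤
      (((SH H).filter (fun f => dg H f < 4 * inc (GoodS H r N C) f)).card : ℝ) +
      (((SH H).filter (fun f => dg H f < 4 * inc (ThinS H r N C) f)).card : ℝ) := by
    exact_mod_cast h3
  have h4 := card_Ygood (C := C) hN hH h2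
  have h5 := card_Ythin hr hN hC hCN hH h2
  have h6 := total_loss (C := C) hN h1
  have h7 : 0 ≤ ∑ e ∈ FlatS H r N C, loss H r N e := by
    apply sum_nonneg
    intro e he
    rw [loss_eq (hH e (mem_filter.1 he).1)]
    exact sum_nonneg (flat_loss_nonneg he)
  set a := (((SH H).filter (fun f => dg H f < 4 * inc (GoodS H r N C) f)).card : ℝ)
  set b := (((SH H).filter (fun f => dg H f < 4 * inc (ThinS H r N C) f)).card : ℝ)
  set g := ((GoodS H r N C).card : ℝ)
  have h8 : a ≤ 4 * (r : ℝ) ^ 2 / N * g := by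
    have : 4 * (r : ℝ) ^ 2 / N * g = (4 * (r : ℝ) ^ 2 * g) / N := by ring
    rw [this, le_div_iff₀ hNR]
    linarith
  have h9 : b ≤ 4 * (r : ℝ) ^ 2 / C * g := by
    have h10 : C / (4 * r * N) * b ≤ (r : ℝ) / N * g := by linarith
    have : 4 * (r : ℝ) ^ 2 / C * g = ((r : ℝ) / N * g) / (C / (4 * r * N)) := by
      field_simp
    rw [this, le_div_iff₀ (by positivity)]
    linarith
  have h11 : (4 * (r : ℝ) ^ 2 / N + 4 * (r : ℝ) ^ 2 / C) * g
      = 4 * (r : ℝ) ^ 2 / N * g + 4 * (r : ℝ) ^ 2 / C * g := by ring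
  rw [h11]
  linarith

/-- flat edges touching a family of shadows -/
noncomputable def FT (H : Finset (Finset V)) (r N : ℕ) (C : ℝ) (B : Finset (Finset V)) :
    Finset (Finset V) := (FlatS H r N C).filter (fun e => ∃ g ∈ sh e, g ∈ B)

/-- the edges at `f` not touching `B` -/
noncomputable def free (H : Finset (Finset V)) (B : Finset (Finset V)) (f : Finset V) :
    Finset (Finset V) := H.filter (fun e => f ∈ sh e ∧ ∀ g ∈ sh e, g ∉ B)

lemma card_Bs {M : ℕ} (hM : 4 * r * M ≤ N) (hN : 0 < N)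
    (hH : ∀ e ∈ H, e.card = r)
    (h2 : ∀ f ∈ SH H, N < r * dg H f) (Bs Bp : Finset (Finset V)) (hBs : Bs ⊆ SH H)
    (hfree : ∀ f ∈ Bs, (free H Bp f).card ≤ M) :
    (Bs.card : ℝ) ≤ ((YS H r N C).card : ℝ) + 4 * (r : ℝ) ^ 2 / N
      * ((FT H r N C Bp).card : ℝ) := by
  have hNR : (0 : ℝ) < N := by exact_mod_cast hN
  have hsub : Bs ⊆ YS H r N C ∪ (Bs \ YS H r N C) := by
    intro f hf
    rw [mem_union, mem_sdiff]
    by_cases h : f ∈ YS H r N C
    · left; exact h
    · right; exact ⟨hf, h⟩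
  have h3 := (card_le_card hsub).trans (card_union_le _ _)
  have h3' : (Bs.card : ℝ) ≤ ((YS H r N C).card : ℝ) + ((Bs \ YS H r N C).card : ℝ) := by
    exact_mod_cast h3
  have h4 : ∀ f ∈ Bs \ YS H r N C, dg H f ≤ 4 * inc (FT H r N C Bp) f := by
    intro f hf
    rw [mem_sdiff] at hf
    have hfS := hBs hf.1
    have h5 : dg H f ≤ 2 * inc (FlatS H r N C) f := by
      by_contra hlt
      push Not at hlt
      exact hf.2 (mem_filter.2 ⟨hfS, hlt⟩)
    have h6 : inc (FlatS H r N C) f ≤ inc (FT H r N C Bp) f + (free H Bp f).card := by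
      unfold inc FT free
      rw [← card_filter_add_card_filter_not (s := (FlatS H r N C).filter (fun e => f ∈ sh e))
        (fun e => ∃ g ∈ sh e, g ∈ Bp)]
      apply add_le_add
      · apply card_le_card
        intro e he
        simp only [mem_filter] at he ⊢
        exact ⟨⟨he.1.1, he.2⟩, he.1.2⟩
      · apply card_le_card
        intro e he
        rw [mem_filter, mem_filter] at he
        rw [mem_filter]
        refine ⟨(mem_filter.1 he.1.1).1, he.1.2, ?_⟩
        have := he.2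
        push Not at this
        exact this
    have h7 := hfree f hf.1
    have h8 := h2 f hfS
    have h9 : 4 * M < dg H f := by
      by_contra hle
      push Not at hle
      have : r * dg H f ≤ r * (4 * M) := Nat.mul_le_mul_left _ hle
      have h10 : r * (4 * M) = 4 * r * M := by ring
      omega
    omega
  have h5 : ∑ f ∈ Bs \ YS H r N C, (N : ℝ)
      ≤ ∑ f ∈ Bs \ YS H r N C, 4 * (r : ℝ) * (inc (FT H r N C Bp) f : ℝ) := by
    apply sum_le_sum
    intro f hf
    have h6 := h4 f hf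
    have h7 := h2 f (hBs (mem_sdiff.1 hf).1)
    have h8 : N ≤ r * (4 * inc (FT H r N C Bp) f) :=
      h7.le.trans (Nat.mul_le_mul_left _ h6)
    have h9 : (N : ℝ) ≤ (r : ℝ) * (4 * (inc (FT H r N C Bp) f : ℝ)) := by exact_mod_cast h8
    linarith
  have h6 : ∑ f ∈ Bs \ YS H r N C, 4 * (r : ℝ) * (inc (FT H r N C Bp) f : ℝ)
      ≤ ∑ f ∈ SH H, 4 * (r : ℝ) * (inc (FT H r N C Bp) f : ℝ) := by
    apply sum_le_sum_of_subset_of_nonneg (sdiff_subset.trans hBs)
    intro f _ _
    positivity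
  have hs := sum_inc (H := H) (A := FT H r N C Bp)
    ((filter_subset _ _).trans (filter_subset _ _)) hH
  have h6e : ∑ f ∈ SH H, 4 * (r : ℝ) * (inc (FT H r N C Bp) f : ℝ)
      = 4 * (r : ℝ) * (r * ((FT H r N C Bp).card : ℝ)) := by rw [← mul_sum, hs]
  rw [h6e] at h6
  rw [sum_const, nsmul_eq_mul] at h5
  have h7 : ((Bs \ YS H r N C).card : ℝ) ≤ 4 * (r : ℝ) ^ 2 / N * ((FT H r N C Bp).card : ℝ) := by
    have : 4 * (r : ℝ) ^ 2 / N * ((FT H r N C Bp).card : ℝ)
        = (4 * (r : ℝ) ^ 2 * ((FT H r N C Bp).card : ℝ)) / N := by ring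
    rw [this, le_div_iff₀ hNR]
    nlinarith
  linarith

/-- low shadows -/
noncomputable def LowS (H : Finset (Finset V)) (N : ℕ) (lam : ℝ) : Finset (Finset V) :=
  (SH H).filter (fun f => (dg H f : ℝ) ≤ lam * N)

/-- the iterated unsafe shadows -/
noncomputable def BS (H : Finset (Finset V)) (N : ℕ) (lam : ℝ) (M : ℕ) : ℕ → Finset (Finset V)
  | 0 => LowS H N lam
  | k + 1 => BS H N lam M k ∪ (SH H).filter (fun f => (free H (BS H N lam M k) f).card ≤ M)

lemma BS_mono (N : ℕ) (lam : ℝ) (M : ℕ) {j k : ℕ} (h : j ≤ k) :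
    BS H N lam M j ⊆ BS H N lam M k := by
  induction h with
  | refl => exact Subset.refl _
  | step _ ih => exact ih.trans subset_union_left

lemma BS_sub (N : ℕ) (lam : ℝ) (M : ℕ) (k : ℕ) : BS H N lam M k ⊆ SH H := by
  induction k with
  | zero => exact filter_subset _ _
  | succ k ih => exact union_subset ih (filter_subset _ _)

lemma free_of_mem {B : Finset (Finset V)} {f : Finset V} (hf : f ∈ B) : free H B f = ∅ := by
  unfold free
  rw [filter_eq_empty_iff]
  rintro e _ ⟨h1, h2⟩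
  exact h2 f h1 hf

lemma BS_free (N : ℕ) (lam : ℝ) (M : ℕ) (k : ℕ) {f : Finset V} (hf : f ∈ BS H N lam M (k + 1)) :
    (free H (BS H N lam M k) f).card ≤ M := by
  rw [BS, mem_union] at hf
  rcases hf with hf | hf
  · rw [free_of_mem hf]; simp
  · exact (mem_filter.1 hf).2

lemma FT_succ (N : ℕ) (lam : ℝ) (M : ℕ) (k : ℕ) :
    ((FT H r N C (BS H N lam M (k + 1))).card : ℝ) ≤ ((FT H r N C (BS H N lam M k)).card : ℝ)
      + M * (((BS H N lam M (k + 1)).card : ℝ) - ((BS H N lam M k).card : ℝ)) := by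
  have hsub : FT H r N C (BS H N lam M (k + 1)) ⊆ FT H r N C (BS H N lam M k) ∪
      (BS H N lam M (k + 1) \ BS H N lam M k).biUnion (fun f => free H (BS H N lam M k) f) := by
    intro e he
    unfold FT at he
    rw [mem_filter] at he
    obtain ⟨heF, g, hg, hgB⟩ := he
    rw [mem_union]
    by_cases ht : ∃ g ∈ sh e, g ∈ BS H N lam M k
    · left
      unfold FT
      rw [mem_filter]
      exact ⟨heF, ht⟩
    · right
      push Not at ht
      rw [mem_biUnion]
      refine ⟨g, mem_sdiff.2 ⟨hgB, ht g hg⟩, ?_⟩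
      unfold free
      rw [mem_filter]
      exact ⟨(mem_filter.1 heF).1, hg, ht⟩
  have h1 := (card_le_card hsub).trans (card_union_le _ _)
  have h2 : ((BS H N lam M (k + 1) \ BS H N lam M k).biUnion
      (fun f => free H (BS H N lam M k) f)).card ≤
      (BS H N lam M (k + 1) \ BS H N lam M k).card * M := by
    apply card_biUnion_le_card_mul
    intro f hf
    exact BS_free N lam M k (mem_sdiff.1 hf).1
  have h3 : (BS H N lam M (k + 1) \ BS H N lam M k).card + (BS H N lam M k).card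
      = (BS H N lam M (k + 1)).card :=
    card_sdiff_add_card_eq_card (BS_mono N lam M (Nat.le_succ k))
  have h3' : ((BS H N lam M (k + 1) \ BS H N lam M k).card : ℝ)
      = ((BS H N lam M (k + 1)).card : ℝ) - ((BS H N lam M k).card : ℝ) := by
    rw [← h3]; push_cast; ring
  have h4 : (FT H r N C (BS H N lam M (k + 1))).card ≤ (FT H r N C (BS H N lam M k)).card
      + (BS H N lam M (k + 1) \ BS H N lam M k).card * M := by omega
  have h5 : ((FT H r N C (BS H N lam M (k + 1))).card : ℝ)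
      ≤ ((FT H r N C (BS H N lam M k)).card : ℝ)
      + ((BS H N lam M (k + 1) \ BS H N lam M k).card : ℝ) * M := by exact_mod_cast h4
  rw [h3'] at h5
  linarith

lemma FT_le (N : ℕ) (lam : ℝ) (M : ℕ) (k : ℕ) :
    ((FT H r N C (BS H N lam M k)).card : ℝ) ≤ ((FT H r N C (BS H N lam M 0)).card : ℝ)
      + M * ((BS H N lam M k).card : ℝ) := by
  induction k with
  | zero =>
    have : (0 : ℝ) ≤ M * ((BS H N lam M 0).card : ℝ) := by positivity
    linarith
  | succ k ih =>
    have := FT_succ (H := H) (r := r) (C := C) N lam M k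
    linarith

lemma card_BS {M : ℕ} (hM : 4 * r * M ≤ N) (hM2 : 8 * r ^ 2 * M ≤ N) (hN : 0 < N)
    (hH : ∀ e ∈ H, e.card = r) (h2 : ∀ f ∈ SH H, N < r * dg H f) (lam : ℝ) (k : ℕ) :
    ((BS H N lam M k).card : ℝ) ≤ 2 * (((YS H r N C).card : ℝ) + 4 * (r : ℝ) ^ 2 / N
      * ((FT H r N C (BS H N lam M 0)).card : ℝ)) := by
  have hNR : (0 : ℝ) < N := by exact_mod_cast hN
  have hpos : (0 : ℝ) ≤ ((YS H r N C).card : ℝ) + 4 * (r : ℝ) ^ 2 / N
      * ((FT H r N C (BS H N lam M 0)).card : ℝ) := by positivity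
  induction k with
  | zero =>
    have h := card_Bs (C := C) hM hN hH h2 (BS H N lam M 0) (BS H N lam M 0)
      (BS_sub N lam M 0) (by
        intro f hf
        rw [free_of_mem hf]; simp)
    linarith
  | succ k ih =>
    have h := card_Bs (C := C) hM hN hH h2 (BS H N lam M (k + 1)) (BS H N lam M k)
      (BS_sub N lam M (k + 1)) (fun f hf => BS_free N lam M k hf)
    have h3 := FT_le (H := H) (r := r) (C := C) N lam M k
    have h4 : 4 * (r : ℝ) ^ 2 / N * ((FT H r N C (BS H N lam M k)).card : ℝ)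
        ≤ 4 * (r : ℝ) ^ 2 / N * (((FT H r N C (BS H N lam M 0)).card : ℝ)
      + M * ((BS H N lam M k).card : ℝ)) := mul_le_mul_of_nonneg_left h3 (by positivity)
    have h5 : 4 * (r : ℝ) ^ 2 / N * (M * ((BS H N lam M k).card : ℝ))
        ≤ ((BS H N lam M k).card : ℝ) / 2 := by
      have h6 : (8 * (r : ℝ) ^ 2 * M) ≤ N := by exact_mod_cast hM2
      have h7 : 4 * (r : ℝ) ^ 2 / N * (M * ((BS H N lam M k).card : ℝ))
          = (8 * (r : ℝ) ^ 2 * M) / N * (((BS H N lam M k).card : ℝ) / 2) := by ring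
      rw [h7]
      have h8 : (8 * (r : ℝ) ^ 2 * M) / N ≤ 1 := by
        rw [div_le_one hNR]; exact h6
      have h9 : (0 : ℝ) ≤ ((BS H N lam M k).card : ℝ) / 2 := by positivity
      nlinarith
    rw [mul_add] at h4
    linarith

lemma card_FT0 (hr : 0 < r) (hN : 0 < N) (hC : 0 < C) (hH : ∀ e ∈ H, e.card = r)
    (h1 : (N : ℝ) * ((SH H).card : ℝ) < r * (H.card : ℝ)) {lam : ℝ} (hlam : 0 < lam)
    (hlam1 : lam < 1) (M : ℕ) :
    (1 - lam) * ((FT H r N C (BS H N lam M 0)).card : ℝ) ≤ r * ((GoodS H r N C).card : ℝ) := by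
  have hrR : (0 : ℝ) < r := by exact_mod_cast hr
  have hNR : (0 : ℝ) < N := by exact_mod_cast hN
  have h6 := total_loss (C := C) hN h1
  have h7 : 0 ≤ ∑ e ∈ ThinS H r N C, loss H r N e := by
    apply sum_nonneg
    intro e he
    refine le_trans ?_ (thin_loss_nonneg hr hN hC.le hH he)
    apply sum_nonneg
    intro f _
    positivity
  have h8 : ∑ e ∈ FT H r N C (BS H N lam M 0), (1 - lam) / N
      ≤ ∑ e ∈ FT H r N C (BS H N lam M 0), loss H r N e := by
    apply sum_le_sum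
    intro e he
    unfold FT at he
    rw [mem_filter] at he
    obtain ⟨heF, g, hg, hgB⟩ := he
    rw [loss_eq (hH e (mem_filter.1 heF).1)]
    have h9 := single_le_sum (f := fun f => (1 : ℝ) / (dg H f : ℝ) - 1 / N)
      (flat_loss_nonneg heF) hg
    refine le_trans ?_ h9
    have hgl : (dg H g : ℝ) ≤ lam * N := (mem_filter.1 hgB).2
    have hgp : (0 : ℝ) < dg H g := by
      exact_mod_cast dg_pos (mem_filter.1 hgB).1
    have h10 : (1 : ℝ) / (lam * N) ≤ 1 / (dg H g : ℝ) := one_div_le_one_div_of_le hgp hgl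
    have h11 : (1 - lam) / N ≤ 1 / (lam * N) - 1 / N := by
      have : 1 / (lam * N) - 1 / N = (1 - lam) / (lam * N) := by field_simp
      rw [this]
      apply div_le_div_of_nonneg_left (by linarith) (by positivity)
      nlinarith
    linarith
  have h9 : ∑ e ∈ FT H r N C (BS H N lam M 0), loss H r N e
      ≤ ∑ e ∈ FlatS H r N C, loss H r N e := by
    apply sum_le_sum_of_subset_of_nonneg (filter_subset _ _)
    intro e he _
    rw [loss_eq (hH e (mem_filter.1 he).1)]
    exact sum_nonneg (flat_loss_nonneg he)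
  rw [sum_const, nsmul_eq_mul] at h8
  have h10 : ((FT H r N C (BS H N lam M 0)).card : ℝ) * ((1 - lam) / N)
      < (r : ℝ) / N * ((GoodS H r N C).card : ℝ) := by linarith
  have h11 : ((FT H r N C (BS H N lam M 0)).card : ℝ) * ((1 - lam) / N)
      = ((1 - lam) * ((FT H r N C (BS H N lam M 0)).card : ℝ)) / N := by ring
  have h12 : (r : ℝ) / N * ((GoodS H r N C).card : ℝ)
      = (r * ((GoodS H r N C).card : ℝ)) / N := by ring
  rw [h11, h12] at h10
  exact ((div_lt_div_iff_of_pos_right hNR).1 h10).le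

/-- the exceptional shadows -/
noncomputable def ZS (H : Finset (Finset V)) (N : ℕ) (lam : ℝ) (M c : ℕ) : Finset (Finset V) :=
  (SH H).filter (fun f => N < dg H f) ∪ BS H N lam M c

lemma big_sub_YS : (SH H).filter (fun f => N < dg H f) ⊆ YS H r N C := by
  intro f hf
  rw [mem_filter] at hf
  unfold YS
  rw [mem_filter]
  refine ⟨hf.1, ?_⟩
  have : inc (FlatS H r N C) f = 0 := by
    unfold inc
    rw [card_eq_zero, filter_eq_empty_iff]
    intro e he hfe
    have := (mem_filter.1 he).2.2 f hfe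
    omega
  rw [this]
  omega

lemma ZS_sub (N : ℕ) (lam : ℝ) (M c : ℕ) : ZS H N lam M c ⊆ SH H :=
  union_subset (filter_subset _ _) (BS_sub N lam M c)

theorem card_ZS (hr : 0 < r) {M : ℕ} (hM : 4 * r * M ≤ N) (hM2 : 8 * r ^ 2 * M ≤ N) (hN : 0 < N)
    (hC : 0 < C) (hCN : C ≤ r * N) (hH : ∀ e ∈ H, e.card = r)
    (h1 : (N : ℝ) * ((SH H).card : ℝ) < r * (H.card : ℝ))
    (h2 : ∀ f ∈ SH H, N < r * dg H f) {lam : ℝ} (hlam : 0 < lam) (hlam1 : lam < 1) (c : ℕ) :
    ((ZS H N lam M c).card : ℝ) ≤ (12 * (r : ℝ) ^ 2 / N + 12 * (r : ℝ) ^ 2 / C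
      + 8 * (r : ℝ) ^ 3 / ((1 - lam) * N)) * ((GoodS H r N C).card : ℝ) := by
  have hNR : (0 : ℝ) < N := by exact_mod_cast hN
  have h3 := card_YS hr hN hC hCN hH h1 h2
  have h4 := card_BS (C := C) hM hM2 hN hH h2 lam c
  have h5 := card_FT0 (C := C) hr hN hC hH h1 hlam hlam1 M
  have h6 : ((ZS H N lam M c).card : ℝ) ≤ ((YS H r N C).card : ℝ) + ((BS H N lam M c).card : ℝ) := by
    have h7 : (ZS H N lam M c).card ≤ (YS H r N C).card + (BS H N lam M c).card := by
      refine (card_union_le _ _).trans ?_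
      have := card_le_card (big_sub_YS (H := H) (r := r) (N := N) (C := C))
      omega
    exact_mod_cast h7
  set y := ((YS H r N C).card : ℝ)
  set F := ((FT H r N C (BS H N lam M 0)).card : ℝ)
  set g := ((GoodS H r N C).card : ℝ)
  have h1l : (0 : ℝ) < 1 - lam := by linarith
  have h8 : F ≤ (r : ℝ) / (1 - lam) * g := by
    have : (r : ℝ) / (1 - lam) * g = (r * g) / (1 - lam) := by ring
    rw [this, le_div_iff₀ h1l]
    linarith
  have h9 : 8 * (r : ℝ) ^ 2 / N * F ≤ 8 * (r : ℝ) ^ 3 / ((1 - lam) * N) * g := by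
    have h10 : 8 * (r : ℝ) ^ 2 / N * F ≤ 8 * (r : ℝ) ^ 2 / N * ((r : ℝ) / (1 - lam) * g) :=
      mul_le_mul_of_nonneg_left h8 (by positivity)
    have h11 : 8 * (r : ℝ) ^ 2 / N * ((r : ℝ) / (1 - lam) * g)
        = 8 * (r : ℝ) ^ 3 / ((1 - lam) * N) * g := by
      field_simp
    linarith
  have h12 : (12 * (r : ℝ) ^ 2 / N + 12 * (r : ℝ) ^ 2 / C
      + 8 * (r : ℝ) ^ 3 / ((1 - lam) * N)) * g
      = 3 * ((4 * (r : ℝ) ^ 2 / N + 4 * (r : ℝ) ^ 2 / C) * g)
        + 8 * (r : ℝ) ^ 3 / ((1 - lam) * N) * g := by ring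
  rw [h12]
  have h13 : 2 * (4 * (r : ℝ) ^ 2 / N * F) = 8 * (r : ℝ) ^ 2 / N * F := by ring
  linarith

end main

end Pool.Agent.TH471.KT
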