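import Mathlib

/-! Proper orderings of tight trees. -/

namespace Pool.Agent.TH471.KT

open Finset

variable {W : Type*} [DecidableEq W]

/-- The first `c` edges of `E` are a proper ordering of a tight tree. -/
def Proper (c : ℕ) (E : ℕ → Finset W) : Prop :=
  ∀ i, 0 < i → i < c → ∃ v ∈ E i, (∀ j, j < i → v ∉ E j) ∧ ∃ j, j < i ∧ E i \ {v} ⊆ E j

lemma Proper.mono {c d : ℕ} {E : ℕ → Finset W} (h : Proper c E) (hd : d ≤ c) : Proper d E :=
  fun i hi hid => h i hi (lt_of_lt_of_le hid hd)

lemma reroot {r : ℕ} (hr : 1 ≤ r) : ∀ (c : ℕ) (e : ℕ → Finset W), (∀ i < c, (e i).card = r) →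
    Proper c e → ∀ q < c, ∃ E : ℕ → Finset W, Proper c E ∧ E 0 = e q ∧
      (∀ i < c, ∃ j < c, E i = e j) ∧ (∀ j < c, ∃ i < c, e j = E i) := by
  intro c
  induction c with
  | zero => intro e _ _ q hq; omega
  | succ c ih =>
    intro e hcard hprop q hq
    have hcard' : ∀ i < c, (e i).card = r := fun i hi => hcard i (by omega)
    have hprop' : Proper c e := hprop.mono (Nat.le_succ c)
    by_cases hqc : q < c
    · obtain ⟨E, hE1, hE2, hE3, hE4⟩ := ih e hcard' hprop' q hqc
      obtain ⟨v, hv, hvn, p, hp, hsub⟩ := hprop c (by omega) (by omega)
      refine ⟨fun i => if i < c then E i else e c, ?_, ?_, ?_, ?_⟩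
      · intro i hi hic
        by_cases h : i < c
        · obtain ⟨w, hw, hwn, j, hj, hs⟩ := hE1 i hi h
          refine ⟨w, by simpa [h] using hw, ?_, j, hj, ?_⟩
          · intro k hk
            have : k < c := by omega
            simpa [this] using hwn k hk
          · have : j < c := by omega
            simpa [h, this] using hs
        · have hic' : i = c := by omega
          subst hic'
          obtain ⟨p', hp', hpe⟩ := hE4 p hp
          refine ⟨v, by simpa using hv, ?_, p', hp', ?_⟩
          · intro k hk
            obtain ⟨k', hk', hke⟩ := hE3 k hk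
            simp only [hk, if_true]
            rw [hke]
            exact hvn k' hk'
          · simp only [lt_irrefl, if_false, hp', if_true]
            rw [← hpe]
            exact hsub
      · have : 0 < c := by omega
        simpa [this] using hE2
      · intro i hi
        by_cases h : i < c
        · obtain ⟨j, hj, hje⟩ := hE3 i h
          exact ⟨j, by omega, by simpa [h] using hje⟩
        · exact ⟨c, by omega, by simp [h]⟩
      · intro j hj
        by_cases h : j < c
        · obtain ⟨i, hi, hie⟩ := hE4 j h
          exact ⟨i, by omega, by simpa [hi] using hie⟩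
        · have : j = c := by omega
          subst this
          exact ⟨j, by omega, by simp⟩
    · have hqc' : q = c := by omega
      subst hqc'
      by_cases hc0 : q = 0
      · subst hc0
        exact ⟨e, hprop, rfl, fun i hi => ⟨i, hi, rfl⟩, fun j hj => ⟨j, hj, rfl⟩⟩
      · obtain ⟨v, hv, hvn, p, hp, hsub⟩ := hprop q (by omega) (by omega)
        obtain ⟨E, hE1, hE2, hE3, hE4⟩ := ih e hcard' hprop' p hp
        have hfcard : (e q \ {v}).card = r - 1 := by
          rw [sdiff_singleton_eq_erase, card_erase_of_mem hv, hcard q (by omega)]
        have hpcard : (e p).card = r := hcard p (by omega)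
        have hdiff : (e p \ (e q \ {v})).card = 1 := by
          rw [card_sdiff_of_subset hsub, hfcard, hpcard]; omega
        obtain ⟨u, hu⟩ := card_eq_one.1 hdiff
        have huep : u ∈ e p ∧ u ∉ e q \ {v} := by
          have : u ∈ e p \ (e q \ {v}) := by rw [hu]; simp
          rwa [mem_sdiff] at this
        refine ⟨fun i => if i = 0 then e q else E (i - 1), ?_, ?_, ?_, ?_⟩
        · intro i hi hic
          by_cases hi1 : i = 1
          · subst hi1
            refine ⟨u, ?_, ?_, 0, by omega, ?_⟩
            · simp only [one_ne_zero, if_false, Nat.sub_self]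
              rw [hE2]; exact huep.1
            · intro j hj
              have : j = 0 := by omega
              subst this
              simp only [if_true]
              intro hueq
              have : u = v := by
                by_contra hne
                exact huep.2 (by rw [mem_sdiff, mem_singleton]; exact ⟨hueq, hne⟩)
              rw [this] at huep
              exact hvn p hp huep.1
            · simp only [one_ne_zero, if_false, Nat.sub_self, if_true]
              rw [hE2]
              intro x hx
              rw [mem_sdiff, mem_singleton] at hx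
              by_contra hxn
              have : x ∈ e p \ (e q \ {v}) := by
                rw [mem_sdiff]
                refine ⟨hx.1, fun h => hxn ?_⟩
                exact (mem_sdiff.1 h).1
              rw [hu, mem_singleton] at this
              exact hx.2 this
          · have hi2 : 1 ≤ i - 1 := by omega
            obtain ⟨w, hw, hwn, j, hj, hs⟩ := hE1 (i - 1) (by omega) (by omega)
            have hi0 : i ≠ 0 := by omega
            refine ⟨w, by simpa [hi0] using hw, ?_, j + 1, by omega, ?_⟩
            · intro k hk
              by_cases hk0 : k = 0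
              · subst hk0
                simp only [if_true]
                intro hwq
                obtain ⟨k', hk', hke⟩ := hE3 (i - 1) (by omega)
                have hwv : w ≠ v := by
                  rintro rfl
                  rw [hke] at hw
                  exact hvn k' hk' hw
                have : w ∈ e p := hsub (by rw [mem_sdiff, mem_singleton]; exact ⟨hwq, hwv⟩)
                rw [← hE2] at this
                exact hwn 0 (by omega) this
              · simp only [hk0, if_false]
                exact hwn (k - 1) (by omega)
            · simp only [hi0, if_false, Nat.add_one_ne_zero, Nat.add_sub_cancel]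
              exact hs
        · simp
        · intro i hi
          by_cases hi0 : i = 0
          · exact ⟨q, by omega, by simp [hi0]⟩
          · obtain ⟨j, hj, hje⟩ := hE3 (i - 1) (by omega)
            exact ⟨j, by omega, by simpa [hi0] using hje⟩
        · intro j hj
          by_cases h : j < q
          · obtain ⟨i, hi, hie⟩ := hE4 j h
            exact ⟨i + 1, by omega, by simpa using hie⟩
          · have : j = q := by omega
            subst this
            exact ⟨0, by omega, by simp⟩

lemma card_verts_le {r : ℕ} {c : ℕ} {E : ℕ → Finset W} (hcard : ∀ i < c, (E i).card = r)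
    (hprop : Proper c E) : ∀ m, m + 1 ≤ c → ((range (m + 1)).biUnion E).card ≤ r + m := by
  intro m
  induction m with
  | zero =>
    intro h
    simp [hcard 0 (by omega)]
  | succ m ih =>
    intro h
    have h1 := ih (by omega)
    obtain ⟨v, hv, hvn, p, hp, hsub⟩ := hprop (m + 1) (by omega) (by omega)
    have h2 : (range (m + 1 + 1)).biUnion E ⊆ insert v ((range (m + 1)).biUnion E) := by
      intro x hx
      rw [mem_biUnion] at hx
      obtain ⟨i, hi, hxi⟩ := hx
      rw [mem_range] at hi
      rw [mem_insert, mem_biUnion]
      by_cases him : i < m + 1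
      · right; exact ⟨i, mem_range.2 him, hxi⟩
      · have : i = m + 1 := by omega
        subst this
        by_cases hxv : x = v
        · left; exact hxv
        · right
          exact ⟨p, mem_range.2 hp, hsub (by rw [mem_sdiff, mem_singleton]; exact ⟨hxi, hxv⟩)⟩
    have h3 := (card_le_card h2).trans (card_insert_le _ _)
    omega

/-- structure of the leaf edges -/
lemma leaf_edges {c t : ℕ} {e : ℕ → Finset W} (hprop : Proper t e)
    (hleaf : ∀ i < t, ∀ j < t, i ≠ j → ∀ x ∈ e i, x ∈ e j → ∃ k < c, x ∈ e k) (hc : 0 < c) :
    ∀ j, c ≤ j → j < t → ∃ v ∈ e j, (∀ i < t, i ≠ j → v ∉ e i) ∧ (∃ i < c, e j \ {v} ⊆ e i) ∧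
      (∀ k < c, v ∉ e k) := by
  intro j
  induction j using Nat.strong_induction_on with
  | _ j ih =>
    intro hcj hjt
    obtain ⟨v, hv, hvn, p, hp, hsub⟩ := hprop j (by omega) hjt
    have hvT : ∀ k < c, v ∉ e k := fun k hk => hvn k (by omega)
    have hvu : ∀ i < t, i ≠ j → v ∉ e i := by
      intro i hi hij hvi
      obtain ⟨k, hk, hvk⟩ := hleaf j hjt i hi (Ne.symm hij) v hv hvi
      exact hvT k hk hvk
    refine ⟨v, hv, hvu, ?_, hvT⟩
    by_cases hpc : p < c
    · exact ⟨p, hpc, hsub⟩
    · obtain ⟨w, hw, hwu, ⟨i, hi, hsi⟩, -⟩ := ih p hp (by omega) (by omega)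
      refine ⟨i, hi, ?_⟩
      intro x hx
      have hxp := hsub hx
      apply hsi
      rw [mem_sdiff, mem_singleton]
      refine ⟨hxp, ?_⟩
      rintro rfl
      exact hwu j hjt (by omega) (mem_sdiff.1 hx).1

end Pool.Agent.TH471.KT
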