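import Pool.Agent.TH471.KT.Core
import Pool.Agent.TH471.KT.Tree

/-! Embedding the trunk. -/

namespace Pool.Agent.TH471.KT

open Finset
open scoped Classical

variable {V : Type*} [DecidableEq V] {W : Type*} [DecidableEq W]

lemma mem_sh_of_subset {e f : Finset V} (hs : f ⊆ e) (hc : e.card = f.card + 1) : f ∈ sh e := by
  have hd : (e \ f).card = 1 := by rw [card_sdiff_of_subset hs]; omega
  obtain ⟨x, hx⟩ := card_eq_one.1 hd
  have hxm : x ∈ e ∧ x ∉ f := by
    have : x ∈ e \ f := by rw [hx]; simp
    rwa [mem_sdiff] at this
  rw [mem_sh]
  refine ⟨x, hxm.1, ?_⟩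
  ext y
  rw [mem_erase]
  constructor
  · rintro ⟨hyx, hye⟩
    by_contra hyf
    have : y ∈ e \ f := by rw [mem_sdiff]; exact ⟨hye, hyf⟩
    rw [hx, mem_singleton] at this
    exact hyx this
  · intro hyf
    refine ⟨?_, hs hyf⟩
    rintro rfl
    exact hxm.2 hyf

/-- choose an extension avoiding the used vertices -/
lemma pick {g : Finset V} {cand : Finset (Finset V)} {used : Finset V} {M : ℕ}
    (hcand : ∀ e ∈ cand, g ∈ sh e) (hM : M < cand.card) (hused : used.card ≤ M) :
    ∃ x, x ∉ g ∧ x ∉ used ∧ insert x g ∈ cand := by
  by_contra hcon
  push Not at hcon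
  have hsub : cand ⊆ used.image (fun x => insert x g) := by
    intro e he
    obtain ⟨x, hx, rfl⟩ := mem_sh_iff_insert.1 (hcand e he)
    rw [mem_image]
    refine ⟨x, ?_, rfl⟩
    by_contra hxu
    exact hcon x hx hxu he
  have := (card_le_card hsub).trans card_image_le
  omega

/-- `E i` is mapped to a labelled good edge, consistently with the colouring. -/
def InE {r : ℕ} (G : Finset (Finset V)) (π : Finset V → V → Fin r) (χ : W → Fin r) (φ : W → V)
    (s : Finset W) : Prop :=
  s.image φ ∈ G ∧ ∀ w ∈ s, π (s.image φ) (φ w) = χ w

theorem embed_trunk {H : Finset (Finset V)} {r N M c : ℕ} {C lam : ℝ} (hr : 0 < r)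
    (hH : ∀ e ∈ H, e.card = r) (G : Finset (Finset V)) (π : Finset V → V → Fin r)
    (hGne : G.Nonempty) (hGH : G ⊆ H) (hval : ∀ e ∈ G, Valid H r N C (π e) e)
    (hrich : ∀ e ∈ G, ∀ f ∈ sh e, f ∈ ZS H N lam M c →
        M < (cons G π e f).card)
    (hMc : r + c ≤ M)
    (E : ℕ → Finset W) (hE : ∀ i < c, (E i).card = r) (hprop : Proper c E)
    (χ : W → Fin r) (hχ : ∀ i < c, Set.InjOn χ (E i : Set W)) :
    ∀ m, m + 1 ≤ c → ∃ φ : W → V,
      Set.InjOn φ {x | ∃ i < m + 1, x ∈ E i} ∧ InE G π χ φ (E 0) ∧
      ∀ i < m + 1, (E i).image φ ∈ H ∧
        (InE G π χ φ (E i) ∨ ∀ g ∈ sh ((E i).image φ), g ∉ BS H N lam M (c - (m + 1))) := by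
  intro m
  induction m with
  | zero =>
    intro hm
    obtain ⟨e0, he0⟩ := hGne
    have hv := hval e0 he0
    have hcard : e0.card = r := hH e0 (hGH he0)
    have hsurj : ∀ k : Fin r, ∃ x ∈ e0, π e0 x = k := by
      have himg : e0.image (π e0) = univ := by
        apply eq_univ_of_card
        rw [card_image_of_injOn hv.1, hcard, Fintype.card_fin]
      intro k
      have : k ∈ e0.image (π e0) := by rw [himg]; exact mem_univ _
      rw [mem_image] at this
      obtain ⟨x, hx, hk⟩ := this
      exact ⟨x, hx, hk⟩
    choose X hX1 hX2 using hsurj
    have hinj : Set.InjOn (fun w => X (χ w)) (E 0 : Set W) := by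
      intro a ha b hb hab
      apply hχ 0 (by omega) ha hb
      have h1 := hX2 (χ a)
      have h2 := hX2 (χ b)
      have hab' : X (χ a) = X (χ b) := hab
      rw [hab'] at h1
      rw [← h1, h2]
    have himg : (E 0).image (fun w => X (χ w)) = e0 := by
      apply eq_of_subset_of_card_le
      · intro x hx
        rw [mem_image] at hx
        obtain ⟨w, _, rfl⟩ := hx
        exact hX1 _
      · rw [card_image_of_injOn hinj, hE 0 (by omega), hcard]
    have hIn : InE G π χ (fun w => X (χ w)) (E 0) := by
      refine ⟨by rw [himg]; exact he0, ?_⟩
      intro w _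
      rw [himg]
      exact hX2 _
    refine ⟨fun w => X (χ w), ?_, hIn, ?_⟩
    · intro a ha b hb hab
      obtain ⟨i, hi, hai⟩ := ha
      obtain ⟨j, hj, hbj⟩ := hb
      have hi0 : i = 0 := by omega
      have hj0 : j = 0 := by omega
      subst hi0; subst hj0
      exact hinj hai hbj hab
    · intro i hi
      have hi0 : i = 0 := by omega
      subst hi0
      exact ⟨by rw [himg]; exact hGH he0, Or.inl hIn⟩
  | succ m ih =>
    intro hm
    obtain ⟨φ, hinj, hIn0, hall⟩ := ih (by omega)
    obtain ⟨v, hv, hvn, p, hp, hsub⟩ := hprop (m + 1) (by omega) (by omega)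
    set f : Finset W := E (m + 1) \ {v} with hf
    have hvf : v ∉ f := by rw [hf]; simp
    have hins : E (m + 1) = insert v f := by
      rw [hf, sdiff_singleton_eq_erase, insert_erase hv]
    have hfcard : f.card = r - 1 := by
      rw [hf, sdiff_singleton_eq_erase, card_erase_of_mem hv, hE (m + 1) (by omega)]
    have hinjp : Set.InjOn φ (E p : Set W) := by
      intro a ha b hb hab
      exact hinj ⟨p, hp, ha⟩ ⟨p, hp, hb⟩ hab
    have hinjf : Set.InjOn φ (f : Set W) := hinjp.mono (by exact_mod_cast hsub)
    set g := f.image φ with hg
    have hgcard : g.card = r - 1 := by rw [hg, card_image_of_injOn hinjf, hfcard]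
    have hpcard : ((E p).image φ).card = r := by
      rw [card_image_of_injOn hinjp, hE p (by omega)]
    have hgsh : g ∈ sh ((E p).image φ) := by
      apply mem_sh_of_subset
      · exact image_subset_image hsub
      · rw [hpcard, hgcard]; omega
    have hgSH : g ∈ SH H := mem_SH.2 ⟨_, (hall p hp).1, hgsh⟩
    -- used vertices
    set used := ((range (m + 1)).biUnion E).image φ with hused
    have husedcard : used.card ≤ M := by
      have h1 : used.card ≤ ((range (m + 1)).biUnion E).card := card_image_le
      have h2 := card_verts_le hE hprop m (by omega)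
      omega
    -- the key extension
    have key : ∃ x, x ∉ g ∧ x ∉ used ∧ insert x g ∈ H ∧
        ((insert x g ∈ G ∧ InE G π χ φ (E p) ∧
            ∀ y ∈ g, π (insert x g) y = π ((E p).image φ) y) ∨
          ∀ h ∈ sh (insert x g), h ∉ BS H N lam M (c - (m + 1 + 1))) := by
      by_cases hcase : InE G π χ φ (E p) ∧ g ∈ ZS H N lam M c
      · obtain ⟨hInp, hgZ⟩ := hcase
        have h1 := hrich _ hInp.1 g hgsh hgZ
        obtain ⟨x, hx1, hx2, hx3⟩ := pick (g := g) (used := used)
          (fun e he => (mem_cons.1 he).2.1) h1 husedcard
        rw [mem_cons] at hx3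
        exact ⟨x, hx1, hx2, hGH hx3.1, Or.inl ⟨hx3.1, hInp, hx3.2.2⟩⟩
      · have hgB : g ∉ BS H N lam M (c - (m + 1)) := by
          rcases (hall p hp).2 with hIn | hOut
          · intro hgB
            apply hcase
            refine ⟨hIn, ?_⟩
            unfold ZS
            rw [mem_union]
            right
            exact BS_mono N lam M (by omega) hgB
          · exact hOut g hgsh
        have hk : c - (m + 1) = (c - (m + 1 + 1)) + 1 := by omega
        rw [hk, BS, mem_union] at hgB
        push Not at hgB
        have h1 : M < (free H (BS H N lam M (c - (m + 1 + 1))) g).card := by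
          by_contra hle
          push Not at hle
          exact hgB.2 (mem_filter.2 ⟨hgSH, hle⟩)
        obtain ⟨x, hx1, hx2, hx3⟩ := pick (g := g) (used := used)
          (fun e he => (mem_filter.1 he).2.1) h1 husedcard
        unfold free at hx3
        rw [mem_filter] at hx3
        exact ⟨x, hx1, hx2, hx3.1, Or.inr hx3.2.2⟩
    obtain ⟨x, hxg, hxused, hxH, hxalt⟩ := key
    have himg : ∀ i < m + 1, (E i).image (Function.update φ v x) = (E i).image φ := by
      intro i hi
      apply image_congr
      intro w hw
      have : w ≠ v := by
        rintro rfl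
        exact hvn i hi hw
      exact Function.update_of_ne this _ _
    have hvp : v ∉ E p := hvn p hp
    have himgm : (E (m + 1)).image (Function.update φ v x) = insert x g := by
      rw [hins, image_insert, Function.update_self]
      congr 1
      rw [hg]
      apply image_congr
      intro w hw
      have : w ≠ v := by
        rintro rfl
        exact hvf hw
      exact Function.update_of_ne this _ _
    have hInUpd : ∀ i < m + 1, InE G π χ φ (E i) →
        InE G π χ (Function.update φ v x) (E i) := by
      intro i hi hIn
      refine ⟨by rw [himg i hi]; exact hIn.1, ?_⟩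
      intro w hw
      rw [himg i hi]
      have : w ≠ v := by
        rintro rfl
        exact hvn i hi hw
      rw [Function.update_of_ne this]
      exact hIn.2 w hw
    refine ⟨Function.update φ v x, ?_, hInUpd 0 (by omega) hIn0, ?_⟩
    · -- injectivity
      have hold : ∀ w, (∃ i < m + 1 + 1, w ∈ E i) → w = v ∨ (w ≠ v ∧ ∃ i < m + 1, w ∈ E i) := by
        rintro w ⟨i, hi, hwi⟩
        by_cases hwv : w = v
        · left; exact hwv
        · right
          refine ⟨hwv, ?_⟩
          by_cases him : i < m + 1
          · exact ⟨i, him, hwi⟩
          · have : i = m + 1 := by omega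
            subst this
            exact ⟨p, hp, hsub (by rw [hf, mem_sdiff, mem_singleton]; exact ⟨hwi, hwv⟩)⟩
      have hne : ∀ w, (∃ i < m + 1, w ∈ E i) → φ w ≠ x := by
        rintro w ⟨i, hi, hwi⟩ rfl
        apply hxused
        rw [hused, mem_image]
        exact ⟨w, mem_biUnion.2 ⟨i, mem_range.2 hi, hwi⟩, rfl⟩
      intro a ha b hb hab
      rcases hold a ha with rfl | ⟨hav, ha'⟩ <;> rcases hold b hb with rfl | ⟨hbv, hb'⟩
      · rfl
      · rw [Function.update_self, Function.update_of_ne hbv] at hab
        exact absurd hab.symm (hne b hb')
      · rw [Function.update_self, Function.update_of_ne hav] at hab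
        exact absurd hab (hne a ha')
      · rw [Function.update_of_ne hav, Function.update_of_ne hbv] at hab
        exact hinj ha' hb' hab
    · intro i hi
      by_cases him : i < m + 1
      · rw [himg i him]
        refine ⟨(hall i him).1, ?_⟩
        rcases (hall i him).2 with h | h
        · left; exact hInUpd i him h
        · right
          intro g' hg' hB
          exact h g' hg' (BS_mono N lam M (by omega) hB)
      · have : i = m + 1 := by omega
        subst this
        rw [himgm]
        refine ⟨hxH, ?_⟩
        rcases hxalt with ⟨hxG, hInp, hπ⟩ | hOut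
        · left
          refine ⟨by rw [himgm]; exact hxG, ?_⟩
          intro w hw
          rw [himgm]
          rw [hins, mem_insert] at hw
          have hlab : ∀ y ∈ f, π (insert x g) (φ y) = χ y := by
            intro y hy
            rw [hπ (φ y) (mem_image_of_mem _ hy)]
            exact hInp.2 y (hsub hy)
          rcases hw with rfl | hw
          · rw [Function.update_self]
            -- the missing colour
            have hv1 := hval _ hxG
            have hne1 : ∀ y ∈ f, χ y ≠ π (insert x g) x := by
              intro y hy heq
              rw [← hlab y hy] at heq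
              have hym : φ y ∈ ((insert x g : Finset V) : Set V) := by
                rw [mem_coe, mem_insert]
                right
                rw [hg]; exact mem_image_of_mem _ hy
              have := hv1.1 hym (by simp) heq
              apply hxg
              rw [← this]
              exact mem_image_of_mem _ hy
            have hne2 : ∀ y ∈ f, χ y ≠ χ w := by
              intro y hy heq
              have := hχ (m + 1) (by omega) (by rw [hins]; simp [hy]) (by rw [hins]; simp) heq
              rw [this] at hy
              exact hvf hy
            have hcard1 : (univ \ f.image χ : Finset (Fin r)).card = 1 := by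
              rw [card_sdiff_of_subset (subset_univ _), card_univ, Fintype.card_fin,
                card_image_of_injOn, hfcard]
              · omega
              · exact (hχ (m + 1) (by omega)).mono (by
                  rw [hins]; simp)
            obtain ⟨z, hz⟩ := card_eq_one.1 hcard1
            have hz1 : π (insert x g) x ∈ (univ \ f.image χ : Finset (Fin r)) := by
              rw [mem_sdiff, mem_image]
              refine ⟨mem_univ _, ?_⟩
              rintro ⟨y, hy, hyx⟩
              exact hne1 y hy hyx
            have hz2 : χ w ∈ (univ \ f.image χ : Finset (Fin r)) := by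
              rw [mem_sdiff, mem_image]
              refine ⟨mem_univ _, ?_⟩
              rintro ⟨y, hy, hyx⟩
              exact hne2 y hy hyx
            rw [hz, mem_singleton] at hz1 hz2
            rw [hz1, hz2]
          · have : w ≠ v := by
              rintro rfl
              exact hvf hw
            rw [Function.update_of_ne this]
            exact hlab w hw
        · right; exact hOut

end Pool.Agent.TH471.KT
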