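import Pool.Agent.TH471.KT.Embed

/-! Adding the leaves by Hall's theorem. -/

namespace Pool.Agent.TH471.KT

open Finset
open scoped Classical

variable {V : Type*} [DecidableEq V] [Fintype V] {W : Type*} [DecidableEq W]

/-- the neighbourhood of a set -/
noncomputable def nb (H : Finset (Finset V)) (g : Finset V) : Finset V :=
  univ.filter (fun y => y ∉ g ∧ insert y g ∈ H)

lemma dg_eq_nb (H : Finset (Finset V)) (g : Finset V) : dg H g = (nb H g).card := by
  have h : H.filter (fun e => g ∈ sh e) = (nb H g).image (fun y => insert y g) := by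
    ext e
    rw [mem_filter, mem_image]
    constructor
    · rintro ⟨he, hg⟩
      obtain ⟨x, hx, rfl⟩ := mem_sh_iff_insert.1 hg
      exact ⟨x, by unfold nb; rw [mem_filter]; exact ⟨mem_univ _, hx, he⟩, rfl⟩
    · rintro ⟨x, hx, rfl⟩
      unfold nb at hx
      rw [mem_filter] at hx
      exact ⟨hx.2.2, mem_sh_iff_insert.2 ⟨x, hx.2.1, rfl⟩⟩
  unfold dg
  rw [h, card_image_of_injOn]
  intro a ha b hb hab
  have ha' : a ∉ g := by
    have : a ∈ nb H g := ha
    unfold nb at this
    exact (mem_filter.1 this).2.1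
  have hab' : insert a g = insert b g := hab
  have : a ∈ insert b g := by rw [← hab']; simp
  rw [mem_insert] at this
  rcases this with h | h
  · exact h
  · exact absurd h ha'

/-- new neighbours -/
lemma card_new (H : Finset (Finset V)) (g used : Finset V) {r c : ℕ} (hr : 0 < r) (hg : g ⊆ used)
    (hgc : g.card = r - 1) (hu : used.card + 1 ≤ r + c) :
    dg H g ≤ ((nb H g) \ used).card + c := by
  rw [dg_eq_nb]
  have h1 : nb H g ⊆ ((nb H g) \ used) ∪ (used \ g) := by
    intro y hy
    rw [mem_union, mem_sdiff, mem_sdiff]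
    by_cases h : y ∈ used
    · right
      refine ⟨h, ?_⟩
      unfold nb at hy
      exact (mem_filter.1 hy).2.1
    · left; exact ⟨hy, h⟩
  have h2 := (card_le_card h1).trans (card_union_le _ _)
  have h3 : (used \ g).card ≤ c := by
    rw [card_sdiff_of_subset hg, hgc]
    omega
  omega

/-- the missing colour -/
lemma missing_colour {r : ℕ} {χ : W → Fin r} {f : Finset W} {u v : W} (hf : f.card = r - 1)
    (hr : 0 < r)
    (hu : u ∉ f) (hv : v ∉ f) (h1 : Set.InjOn χ ((insert u f : Finset W) : Set W))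
    (h2 : Set.InjOn χ ((insert v f : Finset W) : Set W)) : χ u = χ v := by
  have hcard1 : (univ \ f.image χ : Finset (Fin r)).card = 1 := by
    rw [card_sdiff_of_subset (subset_univ _), card_univ, Fintype.card_fin,
      card_image_of_injOn, hf]
    · omega
    · exact h1.mono (by simp)
  obtain ⟨z, hz⟩ := card_eq_one.1 hcard1
  have hz1 : ∀ w, w ∉ f → Set.InjOn χ ((insert w f : Finset W) : Set W) →
      χ w ∈ (univ \ f.image χ : Finset (Fin r)) := by
    intro w hw hinj
    rw [mem_sdiff, mem_image]
    refine ⟨mem_univ _, ?_⟩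
    rintro ⟨y, hy, hyx⟩
    have : y = w := hinj (by simp [hy]) (by simp) hyx
    rw [this] at hy
    exact hw hy
  have h3 := hz1 u hu h1
  have h4 := hz1 v hv h2
  rw [hz, mem_singleton] at h3 h4
  rw [h3, h4]

theorem embed_all {H : Finset (Finset V)} {r N M c t : ℕ} {C lam : ℝ} (hr : 2 ≤ r)
    (hH : ∀ e ∈ H, e.card = r) (G : Finset (Finset V)) (π : Finset V → V → Fin r)
    (hGne : G.Nonempty) (hGH : G ⊆ H) (hval : ∀ e ∈ G, Valid H r N C (π e) e)
    (hrich : ∀ e ∈ G, ∀ f ∈ sh e, f ∈ ZS H N lam M c →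
        M < (cons G π e f).card)
    (hMc : r + c ≤ M) (hlam1 : lam < 1) (htN : N + 1 = t) (hct : c ≤ t) (hNpos : 0 < N)
    (e : ℕ → Finset W) (he : ∀ i < t, (e i).card = r) (hprop : Proper t e)
    (χ : W → Fin r) (hχ : ∀ i < t, Set.InjOn χ (e i : Set W))
    (v : ℕ → W) (att : ℕ → ℕ)
    (hv1 : ∀ j, c ≤ j → j < t → v j ∈ e j)
    (hv2 : ∀ j, c ≤ j → j < t → ∀ i < t, i ≠ j → v j ∉ e i)
    (hv3 : ∀ j, c ≤ j → j < t → att j < c)
    (hv4 : ∀ j, c ≤ j → j < t → e j \ {v j} ⊆ e (att j))
    (hb : ∀ k : Fin r, k.val + 1 < r →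
      (((Ico c t).filter (fun j => χ (v j) ≤ k)).card : ℝ) ≤ ((k.val : ℝ) + 1) * N / r - C - c)
    (q : ℕ) (hq : q < c)
    (hstar : (t : ℝ) - (((Ico c t).filter
      (fun j => (χ (v j)).val + 1 = r ∧ att j = q)).card : ℝ) ≤ lam * N) :
    ∃ F : W → V, Set.InjOn F {x | ∃ i < t, x ∈ e i} ∧ ∀ i < t, (e i).image F ∈ H := by
  have hr0 : 0 < r := by omega
  obtain ⟨E, hE1, hE2, hE3, hE4⟩ := reroot (r := r) (by omega) c e
    (fun i hi => he i (by omega)) (hprop.mono hct) q hq
  have hEcard : ∀ i < c, (E i).card = r := by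
    intro i hi
    obtain ⟨j, hj, hje⟩ := hE3 i hi
    rw [hje]; exact he j (by omega)
  have hEχ : ∀ i < c, Set.InjOn χ (E i : Set W) := by
    intro i hi
    obtain ⟨j, hj, hje⟩ := hE3 i hi
    rw [hje]; exact hχ j (by omega)
  obtain ⟨φ, hinj, hIn0, hall⟩ := embed_trunk (C := C) (lam := lam) (N := N) hr0 hH G π hGne hGH
    hval hrich hMc E hEcard hE1 χ hEχ (c - 1) (by omega)
  have hc1 : c - 1 + 1 = c := by omega
  rw [hc1] at hinj hall
  rw [Nat.sub_self] at hall
  -- transfer to `e`
  have hinj' : Set.InjOn φ {x | ∃ i < c, x ∈ e i} := by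
    apply hinj.mono
    rintro x ⟨i, hi, hx⟩
    obtain ⟨j, hj, hje⟩ := hE4 i hi
    exact ⟨j, hj, by rw [← hje]; exact hx⟩
  have hall' : ∀ i < c, (e i).image φ ∈ H ∧
      (InE G π χ φ (e i) ∨ ∀ g ∈ sh ((e i).image φ), g ∉ BS H N lam M 0) := by
    intro i hi
    obtain ⟨j, hj, hje⟩ := hE4 i hi
    rw [hje]
    exact hall j hj
  rw [hE2] at hIn0
  -- the images of the attached sets
  set f : ℕ → Finset W := fun j => e j \ {v j} with hf
  set g : ℕ → Finset V := fun j => (f j).image φ with hg
  set used := ((range c).biUnion e).image φ with hused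
  have husedc : used.card + 1 ≤ r + c := by
    have h1 : used.card ≤ ((range c).biUnion e).card := card_image_le
    have h2 := card_verts_le (r := r) (c := c) (E := e) (fun i hi => he i (by omega))
      (hprop.mono hct) (c - 1) (by omega)
    rw [hc1] at h2
    omega
  have hfc : ∀ j, c ≤ j → j < t → (f j).card = r - 1 := by
    intro j hcj hjt
    simp only [hf]
    rw [sdiff_singleton_eq_erase, card_erase_of_mem (hv1 j hcj hjt), he j hjt]
  have hinja : ∀ i < c, Set.InjOn φ (e i : Set W) := by
    intro i hi a ha b hb' hab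
    exact hinj' ⟨i, hi, ha⟩ ⟨i, hi, hb'⟩ hab
  have hgc : ∀ j, c ≤ j → j < t → (g j).card = r - 1 := by
    intro j hcj hjt
    simp only [hg]
    rw [card_image_of_injOn, hfc j hcj hjt]
    exact (hinja _ (hv3 j hcj hjt)).mono (by exact_mod_cast hv4 j hcj hjt)
  have hgu : ∀ j, c ≤ j → j < t → g j ⊆ used := by
    intro j hcj hjt
    simp only [hg, hused]
    apply image_subset_image
    intro x hx
    rw [mem_biUnion]
    exact ⟨att j, mem_range.2 (hv3 j hcj hjt), hv4 j hcj hjt hx⟩
  -- structure: the shadow of the trunk edge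
  have hmiss : ∀ j, c ≤ j → j < t → ∃ u, u ∉ f j ∧ e (att j) = insert u (f j) ∧ χ u = χ (v j) ∧
      g j ∈ sh ((e (att j)).image φ) ∧ ((e (att j)).image φ).erase (φ u) = g j := by
    intro j hcj hjt
    have ha := hv3 j hcj hjt
    have hsh : f j ∈ sh (e (att j)) := by
      apply mem_sh_of_subset (hv4 j hcj hjt)
      rw [he _ (by omega), hfc j hcj hjt]; omega
    obtain ⟨u, hu, huE⟩ := mem_sh_iff_insert.1 hsh
    have hvf : v j ∉ f j := by simp [hf]
    have hins : insert (v j) (f j) = e j := by
      simp only [hf]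
      rw [sdiff_singleton_eq_erase, insert_erase (hv1 j hcj hjt)]
    have herase : ((e (att j)).image φ).erase (φ u) = g j := by
      rw [← huE, image_insert]
      simp only [hg]
      rw [erase_insert]
      intro hmem
      rw [mem_image] at hmem
      obtain ⟨w, hw, hwu⟩ := hmem
      have : w = u := hinja _ ha (by rw [← huE]; simp [hw]) (by rw [← huE]; simp) hwu
      rw [this] at hw
      exact hu hw
    refine ⟨u, hu, huE.symm, ?_, ?_, herase⟩
    · apply missing_colour (hfc j hcj hjt) hr0 hu hvf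
      · rw [huE]; exact hχ _ (by omega)
      · rw [hins]; exact hχ _ hjt
    · rw [← herase]
      apply erase_mem_sh
      apply mem_image_of_mem
      rw [← huE]; simp
  have hgSH : ∀ j, c ≤ j → j < t → g j ∈ SH H := by
    intro j hcj hjt
    obtain ⟨u, _, _, _, h, _⟩ := hmiss j hcj hjt
    exact mem_SH.2 ⟨_, (hall' _ (hv3 j hcj hjt)).1, h⟩
  have hnew : ∀ j, c ≤ j → j < t → dg H (g j) ≤ ((nb H (g j)) \ used).card + c := by
    intro j hcj hjt
    exact card_new H (g j) used hr0 (hgu j hcj hjt) (hgc j hcj hjt) husedc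
  -- labels of inner edges
  have hlabel : ∀ j, c ≤ j → j < t → InE G π χ φ (e (att j)) →
      thr r N C (χ (v j)) ≤ (dg H (g j) : ℝ) := by
    intro j hcj hjt hIn
    obtain ⟨u, hu, huE, huv, h, herase⟩ := hmiss j hcj hjt
    have hvl := hval _ hIn.1
    have hmem : φ u ∈ (e (att j)).image φ := by
      apply mem_image_of_mem
      rw [huE]; simp
    have h3 := hvl.2 _ hmem
    rw [herase, hIn.2 u (by rw [huE]; simp), huv] at h3
    exact h3
  -- Hall
  have hall2 := (Finset.all_card_le_biUnion_card_iff_exists_injective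
    (fun j : {j // j ∈ Ico c t} => (nb H (g j.1)) \ used)).1 ?_
  · obtain ⟨y, hy, hym⟩ := hall2
    have hymem : ∀ j : {j // j ∈ Ico c t}, y j ∉ g j.1 ∧ insert (y j) (g j.1) ∈ H ∧ y j ∉ used := by
      intro j
      have h1 := hym j
      rw [mem_sdiff] at h1
      have h2 := h1.1
      unfold nb at h2
      rw [mem_filter] at h2
      exact ⟨h2.2.1, h2.2.2, h1.2⟩
    have hvinj : ∀ i j : {j // j ∈ Ico c t}, v i.1 = v j.1 → i = j := by
      intro i j hij
      by_contra hne
      have hne' : i.1 ≠ j.1 := fun h => hne (Subtype.ext h)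
      have hi := mem_Ico.1 i.2
      have hj := mem_Ico.1 j.2
      have h1 := hv2 i.1 hi.1 hi.2 j.1 hj.2 (Ne.symm hne')
      rw [hij] at h1
      exact h1 (hv1 j.1 hj.1 hj.2)
    set F : W → V := fun x => if h : ∃ j : {j // j ∈ Ico c t}, v j.1 = x then y h.choose else φ x
      with hF
    have hFv : ∀ j : {j // j ∈ Ico c t}, F (v j.1) = y j := by
      intro j
      have h : ∃ i : {j // j ∈ Ico c t}, v i.1 = v j.1 := ⟨j, rfl⟩
      simp only [hF]
      rw [dif_pos h]
      congr 1
      exact hvinj _ _ h.choose_spec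
    have hFφ : ∀ x, (∃ i < c, x ∈ e i) → F x = φ x := by
      rintro x ⟨i, hi, hx⟩
      simp only [hF]
      rw [dif_neg]
      rintro ⟨j, rfl⟩
      have hj := mem_Ico.1 j.2
      exact hv2 j.1 hj.1 hj.2 i (by omega) (by omega) hx
    have hcases : ∀ x, (∃ i < t, x ∈ e i) → (∃ i < c, x ∈ e i) ∨
        ∃ j : {j // j ∈ Ico c t}, x = v j.1 := by
      rintro x ⟨i, hi, hx⟩
      by_cases hic : i < c
      · left; exact ⟨i, hic, hx⟩
      · push Not at hic
        by_cases hxv : x = v i
        · right; exact ⟨⟨i, mem_Ico.2 ⟨hic, hi⟩⟩, hxv⟩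
        · left
          exact ⟨att i, hv3 i hic hi, hv4 i hic hi (by
            rw [mem_sdiff, mem_singleton]; exact ⟨hx, hxv⟩)⟩
    refine ⟨F, ?_, ?_⟩
    · intro a ha b hb' hab
      rcases hcases a ha with ha' | ⟨i, rfl⟩ <;> rcases hcases b hb' with hb'' | ⟨j, rfl⟩
      · rw [hFφ a ha', hFφ b hb''] at hab
        exact hinj' ha' hb'' hab
      · exfalso
        rw [hFφ a ha', hFv j] at hab
        apply (hymem j).2.2
        rw [← hab, hused]
        obtain ⟨i, hi, hx⟩ := ha'
        exact mem_image_of_mem _ (mem_biUnion.2 ⟨i, mem_range.2 hi, hx⟩)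
      · exfalso
        rw [hFv i, hFφ b hb''] at hab
        apply (hymem i).2.2
        rw [hab, hused]
        obtain ⟨i, hi, hx⟩ := hb''
        exact mem_image_of_mem _ (mem_biUnion.2 ⟨i, mem_range.2 hi, hx⟩)
      · rw [hFv i, hFv j] at hab
        rw [hy hab]
    · intro i hi
      by_cases hic : i < c
      · have : (e i).image F = (e i).image φ := by
          apply image_congr
          intro x hx
          exact hFφ x ⟨i, hic, hx⟩
        rw [this]
        exact (hall' i hic).1
      · push Not at hic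
        have hins : e i = insert (v i) (f i) := by
          simp only [hf]
          rw [sdiff_singleton_eq_erase, insert_erase (hv1 i hic hi)]
        have hj := hymem ⟨i, mem_Ico.2 ⟨hic, hi⟩⟩
        rw [hins, image_insert, hFv ⟨i, mem_Ico.2 ⟨hic, hi⟩⟩]
        have : (f i).image F = g i := by
          simp only [hg]
          apply image_congr
          intro x hx
          exact hFφ x ⟨att i, hv3 i hic hi, hv4 i hic hi hx⟩
        rw [this]
        exact hj.2.1
  · -- Hall's condition
    intro s
    rcases s.eq_empty_or_nonempty with rfl | hne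
    · simp
    have hle : ∀ j ∈ s, ((nb H (g j.1)) \ used).card ≤
        (s.biUnion (fun j : {j // j ∈ Ico c t} => (nb H (g j.1)) \ used)).card := by
      intro j hj
      apply card_le_card
      exact subset_biUnion_of_mem (fun j : {j // j ∈ Ico c t} => (nb H (g j.1)) \ used) hj
    have hs_le : s.card ≤ t - c := by
      have := card_le_univ s
      rw [Fintype.card_coe, Nat.card_Ico] at this
      exact this
    by_cases hA : ∃ j ∈ s, N < dg H (g j.1)
    · obtain ⟨j, hj, hjN⟩ := hA
      have hjI := mem_Ico.1 j.2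
      have h1 := hnew j.1 hjI.1 hjI.2
      have h2 := hle j hj
      omega
    push Not at hA
    by_cases hB : ∃ j ∈ s, lam * N < (dg H (g j.1) : ℝ)
    · obtain ⟨j, hj, hjl⟩ := hB
      have hjI := mem_Ico.1 j.2
      have h1 := hnew j.1 hjI.1 hjI.2
      have h2 := hle j hj
      -- the heavy leaves are not in `s`
      have h3 : s.map (Function.Embedding.subtype _) ⊆ Ico c t \ ((Ico c t).filter
          (fun j => (χ (v j)).val + 1 = r ∧ att j = q)) := by
        intro i hi
        rw [mem_map] at hi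
        obtain ⟨w, hw, rfl⟩ := hi
        have hwI := mem_Ico.1 w.2
        rw [mem_sdiff]
        refine ⟨w.2, ?_⟩
        intro hmem
        rw [mem_filter] at hmem
        obtain ⟨-, hcol, hatt⟩ := hmem
        have hIn : InE G π χ φ (e (att w.1)) := by
          have : att w.1 = q := hatt
          rw [this]; exact hIn0
        have h4 := hlabel w.1 hwI.1 hwI.2 hIn
        have hcol' : (χ (v w.1)).val + 1 = r := hcol
        unfold thr at h4
        rw [if_pos hcol'] at h4
        have h5 : N + 1 ≤ dg H (g w.1) := by exact_mod_cast h4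
        have h6 := hA w hw
        omega
      have h4 := card_le_card h3
      rw [card_map, card_sdiff_of_subset (filter_subset _ _), Nat.card_Ico] at h4
      have h5 : ((Ico c t).filter (fun j => (χ (v j)).val + 1 = r ∧ att j = q)).card ≤ t - c := by
        have := card_le_card (filter_subset (fun j => (χ (v j)).val + 1 = r ∧ att j = q) (Ico c t))
        rw [Nat.card_Ico] at this
        exact this
      have h6 : s.card + ((Ico c t).filter
          (fun j => (χ (v j)).val + 1 = r ∧ att j = q)).card + c ≤ t := by omega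
      have h6' : (s.card : ℝ) + (((Ico c t).filter
          (fun j => (χ (v j)).val + 1 = r ∧ att j = q)).card : ℝ) + c ≤ t := by exact_mod_cast h6
      have h1' : (dg H (g j.1) : ℝ) ≤ (((nb H (g j.1)) \ used).card : ℝ) + c := by
        exact_mod_cast h1
      have h7 : (s.card : ℝ) ≤ (((nb H (g j.1)) \ used).card : ℝ) := by linarith
      have h8 : s.card ≤ ((nb H (g j.1)) \ used).card := by exact_mod_cast h7
      omega
    push Not at hB
    -- all low
    have hlow : ∀ j ∈ s, InE G π χ φ (e (att j.1)) := by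
      intro j hj
      have hjI := mem_Ico.1 j.2
      rcases (hall' _ (hv3 j.1 hjI.1 hjI.2)).2 with h | h
      · exact h
      · exfalso
        obtain ⟨u, _, _, _, h1, _⟩ := hmiss j.1 hjI.1 hjI.2
        apply h _ h1
        rw [BS]
        unfold LowS
        rw [mem_filter]
        exact ⟨hgSH j.1 hjI.1 hjI.2, hB j hj⟩
    obtain ⟨j0, hj0, hmax⟩ := exists_max_image s (fun j => χ (v j.1)) hne
    have hj0I := mem_Ico.1 j0.2
    have h1 := hlabel j0.1 hj0I.1 hj0I.2 (hlow j0 hj0)
    have hk : (χ (v j0.1)).val + 1 < r := by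
      have h2 := (χ (v j0.1)).isLt
      by_contra hge
      have heq : (χ (v j0.1)).val + 1 = r := by omega
      unfold thr at h1
      rw [if_pos heq] at h1
      have h3 := hB j0 hj0
      have hNR : (0 : ℝ) < N := by exact_mod_cast hNpos
      nlinarith
    unfold thr at h1
    rw [if_neg (by omega)] at h1
    have h2 := hb (χ (v j0.1)) hk
    have h3 : s.map (Function.Embedding.subtype _) ⊆
        (Ico c t).filter (fun j => χ (v j) ≤ χ (v j0.1)) := by
      intro i hi
      rw [mem_map] at hi
      obtain ⟨w, hw, rfl⟩ := hi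
      rw [mem_filter]
      exact ⟨w.2, hmax w hw⟩
    have h4 := card_le_card h3
    rw [card_map] at h4
    have h4' : (s.card : ℝ) ≤ (((Ico c t).filter (fun j => χ (v j) ≤ χ (v j0.1))).card : ℝ) := by
      exact_mod_cast h4
    have h5 := hnew j0.1 hj0I.1 hj0I.2
    have h5' : (dg H (g j0.1) : ℝ) ≤ (((nb H (g j0.1)) \ used).card : ℝ) + c := by
      exact_mod_cast h5
    have h6 : (s.card : ℝ) ≤ (((nb H (g j0.1)) \ used).card : ℝ) := by linarith
    have h7 : s.card ≤ ((nb H (g j0.1)) \ used).card := by exact_mod_cast h6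
    have h8 := hle j0 hj0
    omega

end Pool.Agent.TH471.KT
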