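import Pool.Agent.TH471.KT.Basic

/-! Good labellings of edges, and the loss of an edge. -/

namespace Pool.Agent.TH471.KT

open Finset

variable {V : Type*} [DecidableEq V]

/-- thresholds -/
noncomputable def thr (r N : ℕ) (C : ℝ) (k : Fin r) : ℝ :=
  if k.val + 1 = r then (N : ℝ) + 1 else ((k.val : ℝ) + 1) * N / r - C

/-- `π` is a valid labelling of the edge `e`. -/
def Valid (H : Finset (Finset V)) (r N : ℕ) (C : ℝ) (π : V → Fin r) (e : Finset V) : Prop :=
  Set.InjOn π (e : Set V) ∧ ∀ v ∈ e, thr r N C (π v) ≤ (dg H (e.erase v) : ℝ)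

/-- The edge `e` has a valid labelling. -/
def Good (H : Finset (Finset V)) (r N : ℕ) (C : ℝ) (e : Finset V) : Prop :=
  ∃ π : V → Fin r, Valid H r N C π e

lemma thr_mono {r N : ℕ} {C : ℝ} (hC : 0 ≤ C) {k k' : Fin r} (h : k ≤ k') :
    thr r N C k ≤ thr r N C k' := by
  have hr : 0 < r := k.pos
  have hrR : (0 : ℝ) < r := by exact_mod_cast hr
  have hkk : (k.val : ℝ) ≤ (k'.val : ℝ) := by exact_mod_cast (Fin.le_def.1 h)
  unfold thr
  split_ifs with h1 h2 h2
  · exact le_refl _
  · exfalso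
    have := Fin.le_def.1 h
    have h3 := k'.isLt
    omega
  · have h4 : ((k.val : ℝ) + 1) ≤ r := by
      have := k.isLt
      exact_mod_cast this
    have h5 : ((k.val : ℝ) + 1) * N / r ≤ N := by
      rw [div_le_iff₀ hrR]
      have hN : (0 : ℝ) ≤ N := by positivity
      nlinarith
    linarith
  · have hN : (0 : ℝ) ≤ N := by positivity
    have : ((k.val : ℝ) + 1) * N / r ≤ ((k'.val : ℝ) + 1) * N / r := by
      apply div_le_div_of_nonneg_right _ hrR.le
      nlinarith
    linarith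

lemma exists_level {H : Finset (Finset V)} {r N : ℕ} (hr : 0 < r) {C : ℝ} (hC : 0 ≤ C)
    {e : Finset V} (he : e.card = r) (hbad : ¬ Good H r N C e) :
    ∃ k : Fin r, k.val + 1 ≤
      (e.filter (fun v => (dg H (e.erase v) : ℝ) < thr r N C k)).card := by
  classical
  by_contra hcon
  push Not at hcon
  apply hbad
  have hall := (Finset.all_card_le_biUnion_card_iff_exists_injective
    (fun v : {v // v ∈ e} => (univ : Finset (Fin r)).filter
      (fun k => thr r N C k ≤ (dg H (e.erase v.1) : ℝ)))).1 ?_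
  · obtain ⟨f, hf, hfm⟩ := hall
    refine ⟨fun v => if h : v ∈ e then f ⟨v, h⟩ else ⟨0, hr⟩, ?_, ?_⟩
    · intro a ha b hb hab
      have ha' : a ∈ e := ha
      have hb' : b ∈ e := hb
      simp only [ha', hb', dif_pos] at hab
      have := hf hab
      simpa using this
    · intro v hv
      simp only [hv, dif_pos]
      have := hfm ⟨v, hv⟩
      simpa using this
  · intro s
    by_contra hlt
    push Not at hlt
    set m := (s.biUnion (fun v : {v // v ∈ e} => (univ : Finset (Fin r)).filter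
      (fun k => thr r N C k ≤ (dg H (e.erase v.1) : ℝ)))).card with hm
    have hs : s.card ≤ r := by
      have := card_le_univ s
      rw [Fintype.card_coe, he] at this
      exact this
    have hmr : m < r := lt_of_lt_of_le hlt hs
    have hnot : ∀ v ∈ s, ¬ (thr r N C ⟨m, hmr⟩ ≤ (dg H (e.erase v.1) : ℝ)) := by
      intro v hv hle
      have hsub : (Finset.Iic (⟨m, hmr⟩ : Fin r)) ⊆ s.biUnion (fun v : {v // v ∈ e} =>
          (univ : Finset (Fin r)).filter
          (fun k => thr r N C k ≤ (dg H (e.erase v.1) : ℝ))) := by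
        intro k hk
        rw [mem_Iic] at hk
        rw [mem_biUnion]
        refine ⟨v, hv, ?_⟩
        rw [mem_filter]
        exact ⟨mem_univ _, (thr_mono hC hk).trans hle⟩
      have h1 := card_le_card hsub
      rw [← hm, Fin.card_Iic] at h1
      simp at h1
    have h2 : s.map (Function.Embedding.subtype _) ⊆
        e.filter (fun v => (dg H (e.erase v) : ℝ) < thr r N C ⟨m, hmr⟩) := by
      intro v hv
      rw [mem_map] at hv
      obtain ⟨w, hw, rfl⟩ := hv
      rw [mem_filter]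
      refine ⟨w.2, ?_⟩
      have := hnot w hw
      push Not at this
      exact this
    have h3 := card_le_card h2
    rw [card_map] at h3
    have h4 := hcon ⟨m, hmr⟩
    simp only at h4
    omega

/-- The loss of an edge. -/
noncomputable def loss (H : Finset (Finset V)) (r N : ℕ) (e : Finset V) : ℝ :=
  (∑ f ∈ sh e, (1 : ℝ) / (dg H f : ℝ)) - (r : ℝ) / N

lemma sum_loss (H : Finset (Finset V)) (r N : ℕ) :
    ∑ e ∈ H, loss H r N e = ((SH H).card : ℝ) - (r : ℝ) / N * (H.card : ℝ) := by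
  unfold loss
  rw [sum_sub_distrib, sum_inv_dg, sum_const, nsmul_eq_mul]
  ring

lemma loss_ge (H : Finset (Finset V)) (r N : ℕ) (e : Finset V) :
    -((r : ℝ) / N) ≤ loss H r N e := by
  unfold loss
  have : 0 ≤ ∑ f ∈ sh e, (1 : ℝ) / (dg H f : ℝ) := by
    apply sum_nonneg
    intro f _
    positivity
  linarith

lemma loss_eq {H : Finset (Finset V)} {r N : ℕ} {e : Finset V} (he : e.card = r) :
    loss H r N e = ∑ f ∈ sh e, ((1 : ℝ) / (dg H f : ℝ) - 1 / N) := by
  unfold loss
  rw [sum_sub_distrib, sum_const, card_sh, he, nsmul_eq_mul]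
  ring

/-- loss of a thin edge. -/
lemma thin_loss {H : Finset (Finset V)} {r N : ℕ} (hr : 0 < r) (hN : 0 < N) {C : ℝ} (hC : 0 ≤ C)
    {e : Finset V} (he : e.card = r) (heH : e ∈ H) (hbad : ¬ Good H r N C e)
    (hbig : ∃ f ∈ sh e, N < dg H f) :
    ∑ f ∈ sh e, min (C / (N : ℝ) ^ 2) ((1 : ℝ) / (dg H f : ℝ)) ≤ loss H r N e := by
  classical
  obtain ⟨k, hk⟩ := exists_level hr hC he hbad
  have hrR : (0 : ℝ) < r := by exact_mod_cast hr
  have hNR : (0 : ℝ) < N := by exact_mod_cast hN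
  have hklt : k.val + 1 < r := by
    by_contra hge
    have hkr : k.val + 1 = r := by have := k.isLt; omega
    have hall : e.filter (fun v => (dg H (e.erase v) : ℝ) < thr r N C k) = e := by
      apply eq_of_subset_of_card_le (filter_subset _ _)
      rw [he]; omega
    obtain ⟨f, hf, hfN⟩ := hbig
    obtain ⟨v, hv, rfl⟩ := mem_sh.1 hf
    have : v ∈ e.filter (fun v => (dg H (e.erase v) : ℝ) < thr r N C k) := by rw [hall]; exact hv
    rw [mem_filter] at this
    have h2 := this.2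
    unfold thr at h2
    rw [if_pos hkr] at h2
    have h3 : dg H (e.erase v) < N + 1 := by exact_mod_cast h2
    omega
  have hthr : thr r N C k = ((k.val : ℝ) + 1) * N / r - C := by
    unfold thr
    rw [if_neg (by omega)]
  -- low shadows
  set X := (sh e).filter (fun f => (dg H f : ℝ) < thr r N C k) with hX
  have hXcard : k.val + 1 ≤ X.card := by
    have : X = (e.filter (fun v => (dg H (e.erase v) : ℝ) < thr r N C k)).image
        (fun v => e.erase v) := by
      ext f
      rw [hX, mem_filter, mem_sh, mem_image]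
      constructor
      · rintro ⟨⟨v, hv, rfl⟩, h⟩
        exact ⟨v, by rw [mem_filter]; exact ⟨hv, h⟩, rfl⟩
      · rintro ⟨v, hv, rfl⟩
        rw [mem_filter] at hv
        exact ⟨⟨v, hv.1, rfl⟩, hv.2⟩
    rw [this, card_image_of_injOn]
    · exact hk
    · exact (erase_injOn e).mono (by
        intro v hv
        have : v ∈ e.filter (fun v => (dg H (e.erase v) : ℝ) < thr r N C k) := hv
        exact (mem_filter.1 this).1)
  have hXle : X.card ≤ r := by
    rw [← he, ← card_sh e]
    exact card_le_card (filter_subset _ _)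
  set x : ℝ := (X.card : ℝ) with hx
  have hx1 : ((k.val : ℝ) + 1) ≤ x := by rw [hx]; exact_mod_cast hXcard
  have hxr : x ≤ r := by rw [hx]; exact_mod_cast hXle
  have hxpos : 0 < x := by
    have : (0 : ℝ) ≤ (k.val : ℝ) := by positivity
    linarith
  set y : ℝ := x * N / r with hy
  have hypos : 0 < y := by positivity
  have hyN : y ≤ N := by
    rw [hy, div_le_iff₀ hrR]
    nlinarith
  -- each low shadow
  have hlow : ∀ f ∈ X, (r : ℝ) / (x * N) + C / (N : ℝ) ^ 2 ≤ (1 : ℝ) / (dg H f : ℝ) := by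
    intro f hf
    rw [hX, mem_filter] at hf
    have hfS : f ∈ SH H := mem_SH.2 ⟨e, heH, hf.1⟩
    have hd : (0 : ℝ) < (dg H f : ℝ) := by exact_mod_cast dg_pos hfS
    have h1 := hf.2
    rw [hthr] at h1
    have h2 : ((k.val : ℝ) + 1) * N / r ≤ y := by
      rw [hy]
      apply div_le_div_of_nonneg_right _ hrR.le
      nlinarith
    have h3 : (dg H f : ℝ) + C ≤ y := by linarith
    have h4 : (r : ℝ) / (x * N) = 1 / y := by
      rw [hy]; field_simp
    rw [h4]
    have h5 : C / (N : ℝ) ^ 2 ≤ C / (y * (dg H f : ℝ)) := by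
      apply div_le_div_of_nonneg_left hC (by positivity)
      have : (dg H f : ℝ) ≤ N := by linarith
      nlinarith
    have h6 : (1 : ℝ) / y + C / (y * (dg H f : ℝ)) ≤ 1 / (dg H f : ℝ) := by
      have : (1 : ℝ) / y + C / (y * (dg H f : ℝ)) = ((dg H f : ℝ) + C) / (y * (dg H f : ℝ)) := by
        field_simp
      rw [this, div_le_div_iff₀ (by positivity) hd]
      nlinarith
    linarith
  have hsplit : ∑ f ∈ sh e, (1 : ℝ) / (dg H f : ℝ)
      = ∑ f ∈ X, (1 : ℝ) / (dg H f : ℝ)
        + ∑ f ∈ (sh e).filter (fun f => ¬ (dg H f : ℝ) < thr r N C k), (1 : ℝ) / (dg H f : ℝ) := by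
    rw [hX, sum_filter_add_sum_filter_not]
  have hsplit2 : ∑ f ∈ sh e, min (C / (N : ℝ) ^ 2) ((1 : ℝ) / (dg H f : ℝ))
      = ∑ f ∈ X, min (C / (N : ℝ) ^ 2) ((1 : ℝ) / (dg H f : ℝ))
        + ∑ f ∈ (sh e).filter (fun f => ¬ (dg H f : ℝ) < thr r N C k),
            min (C / (N : ℝ) ^ 2) ((1 : ℝ) / (dg H f : ℝ)) := by
    rw [hX, sum_filter_add_sum_filter_not]
  have hA : ∑ f ∈ X, min (C / (N : ℝ) ^ 2) ((1 : ℝ) / (dg H f : ℝ)) + (r : ℝ) / N
      ≤ ∑ f ∈ X, (1 : ℝ) / (dg H f : ℝ) := by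
    have h7 : ∑ f ∈ X, ((r : ℝ) / (x * N) + C / (N : ℝ) ^ 2) ≤ ∑ f ∈ X, (1 : ℝ) / (dg H f : ℝ) :=
      sum_le_sum hlow
    have h8 : ∑ f ∈ X, min (C / (N : ℝ) ^ 2) ((1 : ℝ) / (dg H f : ℝ))
        ≤ ∑ f ∈ X, C / (N : ℝ) ^ 2 := sum_le_sum (fun f _ => min_le_left _ _)
    rw [sum_add_distrib, sum_const, nsmul_eq_mul] at h7
    have h9 : (X.card : ℝ) * ((r : ℝ) / (x * N)) = (r : ℝ) / N := by
      rw [← hx]; field_simp
    rw [h9] at h7
    linarith
  have hB : ∑ f ∈ (sh e).filter (fun f => ¬ (dg H f : ℝ) < thr r N C k),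
            min (C / (N : ℝ) ^ 2) ((1 : ℝ) / (dg H f : ℝ))
      ≤ ∑ f ∈ (sh e).filter (fun f => ¬ (dg H f : ℝ) < thr r N C k), (1 : ℝ) / (dg H f : ℝ) :=
    sum_le_sum (fun f _ => min_le_right _ _)
  unfold loss
  rw [hsplit, hsplit2]
  linarith

end Pool.Agent.TH471.KT
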