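import Pool.Agent.TH471.KT.Leaves

/-! The exact Turán bound for unbalanced tight trees. -/

namespace Pool.Agent.TH471.KT

open Finset
open scoped Classical

/-- averaging for monotone sequences -/
lemma mono_avg {r : ℕ} (b : Fin r → ℕ) (hb : Monotone b) (k l : Fin r) (hk : k.val + 1 < r)
    (hl : l.val + 1 = r) :
    (r - 1) * ∑ i ∈ Iic k, b i ≤ (k.val + 1) * ∑ i ∈ Iio l, b i := by
  have hkl : k < l := by rw [Fin.lt_def]; omega
  have hsub : Iic k ⊆ Iio l := by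
    intro i hi
    rw [mem_Iic] at hi
    rw [mem_Iio]
    exact lt_of_le_of_lt hi hkl
  have h1 : ∑ i ∈ Iic k, b i ≤ (k.val + 1) * b k := by
    calc ∑ i ∈ Iic k, b i ≤ ∑ _i ∈ Iic k, b k := sum_le_sum (fun i hi => hb (mem_Iic.1 hi))
      _ = (k.val + 1) * b k := by rw [sum_const, Fin.card_Iic, smul_eq_mul]
  have h2 : (r - 1 - (k.val + 1)) * b k ≤ ∑ i ∈ Iio l \ Iic k, b i := by
    calc (r - 1 - (k.val + 1)) * b k = ∑ _i ∈ Iio l \ Iic k, b k := by
          rw [sum_const, card_sdiff_of_subset hsub, Fin.card_Iic, Fin.card_Iio, smul_eq_mul]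
          congr 1
          omega
      _ ≤ ∑ i ∈ Iio l \ Iic k, b i := by
          apply sum_le_sum
          intro i hi
          rw [mem_sdiff, mem_Iic] at hi
          exact hb (not_le.1 hi.2).le
  have h3 : ∑ i ∈ Iio l, b i = ∑ i ∈ Iic k, b i + ∑ i ∈ Iio l \ Iic k, b i := by
    rw [add_comm, sum_sdiff hsub]
  rw [h3]
  obtain ⟨d, hd⟩ : ∃ d, r - 1 = (k.val + 1) + d := ⟨r - 1 - (k.val + 1), by omega⟩
  have hd' : r - 1 - (k.val + 1) = d := by omega
  rw [hd'] at h2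
  rw [hd]
  set S1 := ∑ i ∈ Iic k, b i
  set S2 := ∑ i ∈ Iio l \ Iic k, b i
  set a := k.val + 1
  have h4 : d * S1 ≤ a * S2 := by
    calc d * S1 ≤ d * (a * b k) := Nat.mul_le_mul_left _ h1
      _ = a * (d * b k) := by ring
      _ ≤ a * S2 := Nat.mul_le_mul_left _ h2
  nlinarith

section numeric

lemma num_hb {r c t k : ℕ} {S B : ℝ} (hr : 2 ≤ r) (hc : 1 ≤ c)
    (hk : k + 1 < r)
    (hB : (t : ℝ) / r + 200 * (r : ℝ) ^ (r + 4) * c - (r + c - 1) ≤ B)
    (hS : ((r : ℝ) - 1) * S ≤ ((k : ℝ) + 1) * ((t : ℝ) - c - B)) :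
    S ≤ ((k : ℝ) + 1) * ((t : ℝ) - 1) / r - 48 * ((r : ℝ) + c) * (r : ℝ) ^ (r + 1) - c := by
  have hrR : (2 : ℝ) ≤ r := by exact_mod_cast hr
  have hcR : (1 : ℝ) ≤ c := by exact_mod_cast hc
  have hkR : (k : ℝ) + 2 ≤ r := by exact_mod_cast hk
  have hk0 : (0 : ℝ) ≤ k := by positivity
  set P : ℝ := (r : ℝ) ^ (r + 1) with hP
  have hP4 : (r : ℝ) ^ (r + 4) = (r : ℝ) ^ 3 * P := by rw [hP]; ring
  have hP1 : 1 ≤ P := one_le_pow₀ (by linarith)
  rw [hP4] at hB
  have hr1 : (0 : ℝ) < (r : ℝ) - 1 := by linarith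
  have hr0 : (0 : ℝ) < r := by linarith
  -- bound on `S`
  have h1 : ((r : ℝ) - 1) * S ≤ ((k : ℝ) + 1) * ((t : ℝ) * ((r : ℝ) - 1) / r
      - 200 * ((r : ℝ) ^ 3 * P) * c + r - 1) := by
    refine hS.trans (mul_le_mul_of_nonneg_left ?_ (by linarith))
    have : (t : ℝ) * ((r : ℝ) - 1) / r = t - t / r := by field_simp
    rw [this]
    linarith
  have h2 : ((r : ℝ) - 1) * (((k : ℝ) + 1) * ((t : ℝ) - 1) / r - 48 * ((r : ℝ) + c) * P - c)
      ≥ ((k : ℝ) + 1) * ((t : ℝ) * ((r : ℝ) - 1) / r - 200 * ((r : ℝ) ^ 3 * P) * c + r - 1) := by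
    have e1 : ((r : ℝ) - 1) * (((k : ℝ) + 1) * ((t : ℝ) - 1) / r - 48 * ((r : ℝ) + c) * P - c)
        - ((k : ℝ) + 1) * ((t : ℝ) * ((r : ℝ) - 1) / r - 200 * ((r : ℝ) ^ 3 * P) * c + r - 1)
        = ((k : ℝ) + 1) * (200 * ((r : ℝ) ^ 3 * P) * c - (r - 1) - (r - 1) / r)
          - ((r : ℝ) - 1) * (48 * ((r : ℝ) + c) * P + c) := by
      field_simp
      ring
    have h3 : ((r : ℝ) - 1) * (48 * ((r : ℝ) + c) * P + c) ≤
        200 * ((r : ℝ) ^ 3 * P) * c - (r - 1) - (r - 1) / r := by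
      have a1 : ((r : ℝ) - 1) / r ≤ 1 := by
        rw [div_le_one hr0]; linarith
      have a2 : (r : ℝ) + c ≤ 2 * (r * c) := by nlinarith
      have a3 : 48 * ((r : ℝ) + c) * P ≤ 96 * (r * c * P) := by
        have h' := mul_le_mul_of_nonneg_right a2 (by linarith : (0 : ℝ) ≤ P)
        linarith
      have a4 : (0 : ℝ) < r * c * P := by positivity
      have a5 : ((r : ℝ) - 1) * (48 * ((r : ℝ) + c) * P + c) ≤ r * (96 * (r * c * P) + c) := by
        apply mul_le_mul (by linarith) (by linarith) (by positivity) (by linarith)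
      have a6 : (r : ℝ) * (96 * (r * c * P) + c) = 96 * (r ^ 2 * c * P) + r * c := by ring
      have a7 : (r : ℝ) * c ≤ r ^ 2 * c * P := by
        have b0 : (1 : ℝ) ≤ r * P := by nlinarith
        have b : (r : ℝ) ^ 2 * c * P = (r * c) * (r * P) := by ring
        rw [b]
        have b2 : (0 : ℝ) ≤ r * c := by positivity
        have b3 := mul_le_mul_of_nonneg_left b0 b2
        linarith
      have a8 : 2 * ((r : ℝ) ^ 2 * c * P) ≤ r ^ 3 * P * c := by
        have b : (r : ℝ) ^ 3 * P * c = r * (r ^ 2 * c * P) := by ring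
        rw [b]
        have b1 : (0 : ℝ) ≤ (r : ℝ) ^ 2 * c * P := by positivity
        exact mul_le_mul_of_nonneg_right hrR b1
      have a9 : (r : ℝ) ≤ r ^ 2 * c * P := by
        have : (r : ℝ) ≤ r * c := by nlinarith
        linarith
      have a10 : 200 * ((r : ℝ) ^ 3 * P) * c = 200 * (r ^ 3 * P * c) := by ring
      rw [a10]
      linarith
    have h4 : (0 : ℝ) ≤ 200 * ((r : ℝ) ^ 3 * P) * c - (r - 1) - (r - 1) / r := by
      refine le_trans ?_ h3
      apply mul_nonneg hr1.le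
      positivity
    have h5 : 200 * ((r : ℝ) ^ 3 * P) * c - (r - 1) - (r - 1) / r ≤
        ((k : ℝ) + 1) * (200 * ((r : ℝ) ^ 3 * P) * c - (r - 1) - (r - 1) / r) := by
      have h6 := mul_le_mul_of_nonneg_right (show (1 : ℝ) ≤ (k : ℝ) + 1 by linarith) h4
      linarith
    linarith
  have h3 : ((r : ℝ) - 1) * S ≤ ((r : ℝ) - 1) *
      (((k : ℝ) + 1) * ((t : ℝ) - 1) / r - 48 * ((r : ℝ) + c) * P - c) := by linarith
  exact le_of_mul_le_mul_left h3 hr1

lemma num_sum {r c N : ℕ} (hr : 2 ≤ r) (hc : 1 ≤ c)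
    (hN : 120 * (r : ℝ) ^ (r + 4) * (c : ℝ) ^ 2 ≤ N) :
    (((r + c : ℕ) : ℝ)) * (r : ℝ) ^ (r - 1) * (12 * (r : ℝ) ^ 2 / N
      + 12 * (r : ℝ) ^ 2 / (48 * ((r : ℝ) + c) * (r : ℝ) ^ (r + 1))
      + 8 * (r : ℝ) ^ 3 / ((1 - (1 - 1 / (2 * (r : ℝ) * c))) * N)) < 1 := by
  have hrR : (2 : ℝ) ≤ r := by exact_mod_cast hr
  have hcR : (1 : ℝ) ≤ c := by exact_mod_cast hc
  have hr0 : (0 : ℝ) < r := by linarith
  have hc0 : (0 : ℝ) < c := by linarith
  set P : ℝ := (r : ℝ) ^ (r + 1) with hP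
  have hP4 : (r : ℝ) ^ (r + 4) = (r : ℝ) ^ 3 * P := by rw [hP]; ring
  have hP1 : 1 ≤ P := one_le_pow₀ (by linarith)
  have hPr : (r : ℝ) ^ (r - 1) * (r : ℝ) ^ 2 = P := by
    rw [hP, ← pow_add]
    congr 1
    omega
  rw [hP4] at hN
  have hNpos : (0 : ℝ) < N := by
    refine lt_of_lt_of_le ?_ hN
    positivity
  set Q : ℝ := (r : ℝ) ^ (r - 1) with hQ
  have hQ0 : 0 < Q := by positivity
  push_cast
  have e1 : ((r : ℝ) + c) * Q * (12 * (r : ℝ) ^ 2 / N
      + 12 * (r : ℝ) ^ 2 / (48 * ((r : ℝ) + c) * P)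
      + 8 * (r : ℝ) ^ 3 / ((1 - (1 - 1 / (2 * (r : ℝ) * c))) * N))
      = ((r : ℝ) + c) * (12 * (Q * (r : ℝ) ^ 2) + 16 * ((r : ℝ) ^ 2 * (Q * (r : ℝ) ^ 2) * c)) / N
        + (Q * (r : ℝ) ^ 2) / (4 * P) := by
    have hne : (r : ℝ) + c ≠ 0 := by positivity
    have : (1 - (1 - 1 / (2 * (r : ℝ) * c))) = 1 / (2 * (r : ℝ) * c) := by ring
    rw [this]
    field_simp
    ring
  rw [e1, hPr]
  have e2 : P / (4 * P) = 1 / 4 := by
    field_simp
  rw [e2]
  have h1 : ((r : ℝ) + c) * (12 * P + 16 * ((r : ℝ) ^ 2 * P * c)) ≤ 60 * ((r : ℝ) ^ 3 * P) * c ^ 2 := by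
    have a2 : (r : ℝ) + c ≤ 2 * (r * c) := by nlinarith
    have a3 : ((r : ℝ) + c) * (12 * P + 16 * ((r : ℝ) ^ 2 * P * c))
        ≤ 2 * (r * c) * (12 * P + 16 * ((r : ℝ) ^ 2 * P * c)) :=
      mul_le_mul_of_nonneg_right a2 (by positivity)
    have a4 : 2 * (r * c) * (12 * P + 16 * ((r : ℝ) ^ 2 * P * c))
        = 24 * (r * c * P) + 32 * ((r : ℝ) ^ 3 * P * c ^ 2) := by ring
    have a5 : (r : ℝ) * c * P ≤ r ^ 3 * P * c ^ 2 := by
      have b : (r : ℝ) ^ 3 * P * c ^ 2 = (r * c * P) * (r ^ 2 * c) := by ring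
      rw [b]
      have b1 : (1 : ℝ) ≤ r ^ 2 * c := by nlinarith
      have b2 : (0 : ℝ) ≤ r * c * P := by positivity
      nlinarith
    nlinarith
  have h2 : ((r : ℝ) + c) * (12 * P + 16 * ((r : ℝ) ^ 2 * P * c)) / N ≤ 1 / 2 := by
    rw [div_le_div_iff₀ hNpos (by norm_num)]
    nlinarith
  linarith

end numeric

variable {V : Type*} [DecidableEq V] [Fintype V] {W : Type*} [DecidableEq W]

theorem main_shadow (r c t : ℕ) (hr : 2 ≤ r) (hc : 1 ≤ c)
    (hct : 200 * r ^ (r + 4) * c ^ 2 ≤ t)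
    (e : ℕ → Finset W) (he : ∀ i < t, (e i).card = r) (hprop : Proper t e)
    (hleaf : ∀ i < t, ∀ j < t, i ≠ j → ∀ x ∈ e i, x ∈ e j → ∃ k < c, x ∈ e k)
    (χ₀ : W → Fin r) (hχ₀ : ∀ i < t, Set.InjOn χ₀ (e i : Set W))
    (k₀ : Fin r) (hk₀ : (t : ℝ) / r + 200 * (r : ℝ) ^ (r + 4) * c
      ≤ ((((range t).biUnion e).filter (fun x => χ₀ x = k₀)).card : ℝ))
    (H₀ : Finset (Finset V)) (hH₀ : ∀ h ∈ H₀, h.card = r)
    (hfree : ¬ ∃ f : W → V, Set.InjOn f {x | ∃ i < t, x ∈ e i} ∧ ∀ i < t, (e i).image f ∈ H₀) :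
    (H₀.card : ℝ) ≤ ((t : ℝ) - 1) / r * ((SH H₀).card : ℝ) := by
  by_contra hcon
  push Not at hcon
  apply hfree
  have hrR : (2 : ℝ) ≤ r := by exact_mod_cast hr
  have hcR : (1 : ℝ) ≤ c := by exact_mod_cast hc
  have hr0 : (0 : ℝ) < r := by linarith
  have hc0 : (0 : ℝ) < c := by linarith
  -- size facts
  have hpow : 1 ≤ r ^ (r + 1) := Nat.one_le_pow _ _ (by omega)
  have hpow4 : r ^ (r + 4) = r ^ 3 * r ^ (r + 1) := by ring
  have hr3 : 8 ≤ r ^ 3 := by
    calc 8 = 2 ^ 3 := by norm_num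
      _ ≤ r ^ 3 := Nat.pow_le_pow_left hr 3
  have hbig : 200 * (r ^ 3 * c ^ 2) ≤ t := by
    refine le_trans ?_ hct
    rw [hpow4]
    have : r ^ 3 * c ^ 2 ≤ r ^ 3 * r ^ (r + 1) * c ^ 2 := by
      have h : r ^ 3 * c ^ 2 * 1 ≤ r ^ 3 * c ^ 2 * r ^ (r + 1) := Nat.mul_le_mul_left _ hpow
      calc r ^ 3 * c ^ 2 = r ^ 3 * c ^ 2 * 1 := by ring
        _ ≤ r ^ 3 * c ^ 2 * r ^ (r + 1) := h
        _ = r ^ 3 * r ^ (r + 1) * c ^ 2 := by ring
    calc 200 * (r ^ 3 * c ^ 2) ≤ 200 * (r ^ 3 * r ^ (r + 1) * c ^ 2) := Nat.mul_le_mul_left _ this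
      _ = 200 * (r ^ 3 * r ^ (r + 1)) * c ^ 2 := by ring
  have hc2 : c ≤ c ^ 2 := by nlinarith
  have hr3c : r ^ 3 * c ≤ r ^ 3 * c ^ 2 := Nat.mul_le_mul_left _ hc2
  have hrc_r3c : r * c ≤ r ^ 3 * c := by
    apply Nat.mul_le_mul_right
    calc r = r ^ 1 := (pow_one r).symm
      _ ≤ r ^ 3 := Nat.pow_le_pow_right (by omega) (by omega)
  have hr2c_r3c : r ^ 2 * c ≤ r ^ 3 * c := by
    apply Nat.mul_le_mul_right
    exact Nat.pow_le_pow_right (by omega) (by omega)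
  have hrc1 : 1 ≤ r * c := Nat.mul_pos (by omega) (by omega)
  have hcrc : c ≤ r * c := Nat.le_mul_of_pos_left _ (by omega)
  have hrrc : r ≤ r * c := Nat.le_mul_of_pos_right _ (by omega)
  obtain ⟨N, htN⟩ : ∃ N, N + 1 = t := ⟨t - 1, by omega⟩
  have hNpos : 0 < N := by omega
  have hNR : (t : ℝ) - 1 = N := by rw [← htN]; push_cast; ring
  have hNR0 : (0 : ℝ) < N := by exact_mod_cast hNpos
  have hctle : c ≤ t := by omega
  -- minimal subfamily
  rw [hNR] at hcon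
  obtain ⟨H, hHH, hHcard, hHrich⟩ := exists_rich (sh (V := V)) ((N : ℝ) / r) (by positivity) H₀ hcon
  have hH : ∀ h ∈ H, h.card = r := fun h hh => hH₀ h (hHH hh)
  have h1 : (N : ℝ) * ((SH H).card : ℝ) < r * (H.card : ℝ) := by
    have : (N : ℝ) / r * ((SH H).card : ℝ) < (H.card : ℝ) := hHcard
    have h2 : (N : ℝ) / r * ((SH H).card : ℝ) = (N * ((SH H).card : ℝ)) / r := by ring
    rw [h2, div_lt_iff₀ hr0] at this
    linarith
  have h2 : ∀ f ∈ SH H, N < r * dg H f := by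
    intro f hf
    have h3 := hHrich f hf
    have h4 : (N : ℝ) / r < (dg H f : ℝ) := h3
    rw [div_lt_iff₀ hr0] at h4
    have h5 : (N : ℝ) < (r * dg H f : ℕ) := by push_cast; linarith
    exact_mod_cast h5
  -- parameters
  set M := r + c with hM
  set C : ℝ := 48 * ((r : ℝ) + c) * (r : ℝ) ^ (r + 1) with hC
  have hC0 : 0 < C := by positivity
  set lam : ℝ := 1 - 1 / (2 * (r : ℝ) * c) with hlam
  have hinv : (0 : ℝ) < 1 / (2 * (r : ℝ) * c) := by positivity
  have hinv1 : 1 / (2 * (r : ℝ) * c) < 1 := by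
    rw [div_lt_one (by positivity)]
    nlinarith
  have hMle : M ≤ 2 * (r * c) := by omega
  have hn1 : 4 * r * M ≤ N := by
    have : 4 * r * M ≤ 8 * (r ^ 2 * c) := by
      calc 4 * r * M ≤ 4 * r * (2 * (r * c)) := Nat.mul_le_mul_left _ hMle
        _ = 8 * (r ^ 2 * c) := by ring
    omega
  have hn2 : 8 * r ^ 2 * M ≤ N := by
    have : 8 * r ^ 2 * M ≤ 16 * (r ^ 3 * c) := by
      calc 8 * r ^ 2 * M ≤ 8 * r ^ 2 * (2 * (r * c)) := Nat.mul_le_mul_left _ hMle
        _ = 16 * (r ^ 3 * c) := by ring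
    omega
  have hNbig : 120 * (r : ℝ) ^ (r + 4) * (c : ℝ) ^ 2 ≤ N := by
    have h3 : 120 * r ^ (r + 4) * c ^ 2 ≤ N := by
      have h4 : 1 ≤ r ^ (r + 4) * c ^ 2 :=
        Nat.mul_pos (Nat.pow_pos (by omega)) (Nat.pow_pos (by omega))
      have h5 : 200 * r ^ (r + 4) * c ^ 2 = 200 * (r ^ (r + 4) * c ^ 2) := by ring
      have h6 : 120 * r ^ (r + 4) * c ^ 2 = 120 * (r ^ (r + 4) * c ^ 2) := by ring
      omega
    exact_mod_cast h3
  have hCN : C ≤ r * N := by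
    have a1 : C ≤ 96 * (r * c * (r : ℝ) ^ (r + 1)) := by
      rw [hC]
      have h : (r : ℝ) + c ≤ 2 * (r * c) := by nlinarith
      have hp : (0 : ℝ) ≤ (r : ℝ) ^ (r + 1) := by positivity
      have h' := mul_le_mul_of_nonneg_right h hp
      linarith
    have a2 : 96 * (r * c * (r : ℝ) ^ (r + 1)) ≤ 120 * (r : ℝ) ^ (r + 4) * (c : ℝ) ^ 2 := by
      have : (r : ℝ) ^ (r + 4) = (r : ℝ) ^ 3 * (r : ℝ) ^ (r + 1) := by ring
      rw [this]
      have b : 120 * ((r : ℝ) ^ 3 * (r : ℝ) ^ (r + 1)) * (c : ℝ) ^ 2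
          = 120 * (r * c * (r : ℝ) ^ (r + 1)) * (r ^ 2 * c) := by ring
      rw [b]
      have b1 : (1 : ℝ) ≤ r ^ 2 * c := by nlinarith
      have b2 : (0 : ℝ) ≤ 120 * (r * c * (r : ℝ) ^ (r + 1)) := by positivity
      have b3 : (0 : ℝ) ≤ (r * c * (r : ℝ) ^ (r + 1)) := by positivity
      have b4 := mul_le_mul_of_nonneg_left b1 b2
      linarith
    have a3 : (N : ℝ) ≤ r * N := by nlinarith
    linarith
  obtain ⟨G, π, hGne, hGH, hval, hrich⟩ := exists_core (c := c) (C := C) (lam := lam)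
    (by omega : 0 < r) hn1 hn2 hNpos hC0 hCN hH h1 h2 (by linarith) (by linarith)
    (num_sum hr hc hNbig)
  -- leaves
  have hle := leaf_edges hprop hleaf (by omega : 0 < c)
  have hch : ∀ j, ∃ (v : W) (a : ℕ), c ≤ j → j < t →
      v ∈ e j ∧ (∀ i < t, i ≠ j → v ∉ e i) ∧ a < c ∧ e j \ {v} ⊆ e a := by
    intro j
    by_cases h : c ≤ j ∧ j < t
    · obtain ⟨v, hv, hvu, ⟨a, ha, hs⟩, -⟩ := hle j h.1 h.2
      exact ⟨v, a, fun _ _ => ⟨hv, hvu, ha, hs⟩⟩
    · have h0 : (e 0).Nonempty := by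
        rw [← card_pos, he 0 (by omega)]; omega
      exact ⟨h0.choose, 0, fun h1 h2 => absurd ⟨h1, h2⟩ h⟩
  choose v att hva using hch
  -- colours, sorted
  set b : Fin r → ℕ := fun k => ((Ico c t).filter (fun j => χ₀ (v j) = k)).card with hb
  set σ := Tuple.sort b with hσ
  have hmono : Monotone (b ∘ σ) := Tuple.monotone_sort b
  set χ : W → Fin r := fun w => σ.symm (χ₀ w) with hχ
  have hb' : ∀ k, ((Ico c t).filter (fun j => χ (v j) = k)).card = (b ∘ σ) k := by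
    intro k
    simp only [hb, Function.comp]
    congr 1
    apply filter_congr
    intro j _
    simp only [hχ]
    exact Equiv.symm_apply_eq σ
  have hχinj : ∀ i < t, Set.InjOn χ (e i : Set W) := by
    intro i hi a ha b' hb' hab
    simp only [hχ] at hab
    exact hχ₀ i hi ha hb' (σ.symm.injective hab)
  -- the last colour
  set l : Fin r := ⟨r - 1, by omega⟩ with hl
  have hlr : l.val + 1 = r := by simp only [hl]; omega
  have hlmax : ∀ k : Fin r, k ≤ l := by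
    intro k
    rw [Fin.le_def]
    have := k.isLt
    simp only [hl]; omega
  have hfib : ∀ S : Finset (Fin r), ((Ico c t).filter (fun j => χ (v j) ∈ S)).card
      = ∑ k ∈ S, (b ∘ σ) k := by
    intro S
    rw [card_eq_sum_card_fiberwise (f := fun j => χ (v j)) (t := S)]
    · apply sum_congr rfl
      intro k hk
      rw [← hb' k, filter_filter]
      congr 1
      apply filter_congr
      intro j _
      constructor
      · rintro ⟨_, h⟩; exact h
      · intro h; exact ⟨by rw [h]; exact hk, h⟩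
    · intro j hj
      have : j ∈ (Ico c t).filter (fun j => χ (v j) ∈ S) := hj
      exact (mem_filter.1 this).2
  have htotal : ∑ k ∈ Iio l, (b ∘ σ) k + (b ∘ σ) l = t - c := by
    have h3 : ∑ k ∈ (univ : Finset (Fin r)), (b ∘ σ) k = t - c := by
      rw [← hfib univ]
      simp
    have h4 : (univ : Finset (Fin r)) = insert l (Iio l) := by
      ext k
      simp only [mem_univ, mem_insert, mem_Iio, true_iff]
      exact (eq_or_lt_of_le (hlmax k))
    rw [h4, sum_insert (by simp)] at h3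
    omega
  -- size of the last colour
  have hBl : (t : ℝ) / r + 200 * (r : ℝ) ^ (r + 4) * c - (r + c - 1) ≤ (((b ∘ σ) l : ℕ) : ℝ) := by
    have h3 : (((range t).biUnion e).filter (fun x => χ₀ x = k₀)).card
        ≤ ((range c).biUnion e).card + b k₀ := by
      have hsub : ((range t).biUnion e).filter (fun x => χ₀ x = k₀) ⊆
          (range c).biUnion e ∪ ((Ico c t).filter (fun j => χ₀ (v j) = k₀)).image v := by
        intro x hx
        rw [mem_filter, mem_biUnion] at hx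
        obtain ⟨⟨i, hi, hxi⟩, hxk⟩ := hx
        rw [mem_range] at hi
        rw [mem_union, mem_biUnion, mem_image]
        by_cases hic : i < c
        · left; exact ⟨i, mem_range.2 hic, hxi⟩
        · push Not at hic
          obtain ⟨hv1, hv2, hv3, hv4⟩ := hva i hic hi
          by_cases hxv : x = v i
          · right
            refine ⟨i, ?_, hxv.symm⟩
            rw [mem_filter, mem_Ico]
            exact ⟨⟨hic, hi⟩, by rw [← hxv]; exact hxk⟩
          · left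
            exact ⟨att i, mem_range.2 hv3, hv4 (by
              rw [mem_sdiff, mem_singleton]; exact ⟨hxi, hxv⟩)⟩
      refine (card_le_card hsub).trans ((card_union_le _ _).trans ?_)
      exact Nat.add_le_add_left card_image_le _
    have h4 := card_verts_le (r := r) (c := c) (E := e) (fun i hi => he i (by omega))
      (hprop.mono hctle) (c - 1) (by omega)
    have hc1 : c - 1 + 1 = c := by omega
    rw [hc1] at h4
    have h5 : b k₀ ≤ (b ∘ σ) l := by
      have h6 : (b ∘ σ) (σ.symm k₀) ≤ (b ∘ σ) l := hmono (hlmax _)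
      simpa using h6
    have h6 : (((range t).biUnion e).filter (fun x => χ₀ x = k₀)).card + 1
        ≤ r + c + (b ∘ σ) l := by omega
    have h7 : ((((range t).biUnion e).filter (fun x => χ₀ x = k₀)).card : ℝ) + 1
        ≤ r + c + (((b ∘ σ) l : ℕ) : ℝ) := by exact_mod_cast h6
    linarith
  -- heavy root
  have hq : ∃ q < c, (b ∘ σ) l ≤ c * ((Ico c t).filter
      (fun j => (χ (v j)).val + 1 = r ∧ att j = q)).card := by
    by_contra hno
    push Not at hno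
    have h3 : (b ∘ σ) l = ∑ q ∈ range c, ((Ico c t).filter
        (fun j => (χ (v j)).val + 1 = r ∧ att j = q)).card := by
      rw [← hb' l]
      rw [card_eq_sum_card_fiberwise (f := att) (t := range c)]
      · apply sum_congr rfl
        intro q _
        rw [filter_filter]
        congr 1
        apply filter_congr
        intro j _
        constructor
        · rintro ⟨h, h'⟩
          exact ⟨by rw [h]; exact hlr, h'⟩
        · rintro ⟨h, h'⟩
          refine ⟨?_, h'⟩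
          apply Fin.ext
          have : (χ (v j)).val + 1 = l.val + 1 := by rw [h, hlr]
          omega
      · intro j hj
        have hj' : j ∈ (Ico c t).filter (fun j => χ (v j) = l) := hj
        rw [mem_filter, mem_Ico] at hj'
        exact mem_range.2 (hva j hj'.1.1 hj'.1.2).2.2.1
    have h4 : ∑ q ∈ range c, c * ((Ico c t).filter
        (fun j => (χ (v j)).val + 1 = r ∧ att j = q)).card < ∑ _q ∈ range c, (b ∘ σ) l := by
      apply sum_lt_sum_of_nonempty ⟨0, mem_range.2 (by omega)⟩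
      intro q hq
      exact hno q (mem_range.1 hq)
    rw [← mul_sum, ← h3, sum_const, card_range, smul_eq_mul] at h4
    exact lt_irrefl _ h4
  obtain ⟨q, hqc, hqb⟩ := hq
  have hstar : (t : ℝ) - (((Ico c t).filter
      (fun j => (χ (v j)).val + 1 = r ∧ att j = q)).card : ℝ) ≤ lam * N := by
    set L := (((Ico c t).filter (fun j => (χ (v j)).val + 1 = r ∧ att j = q)).card : ℝ) with hL
    have h3 : (((b ∘ σ) l : ℕ) : ℝ) ≤ c * L := by rw [hL]; exact_mod_cast hqb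
    have h4 : (t : ℝ) / r ≤ (((b ∘ σ) l : ℕ) : ℝ) := by
      refine le_trans ?_ hBl
      have : (r : ℝ) + c - 1 ≤ 200 * (r : ℝ) ^ (r + 4) * c := by
        have a1 : (r : ℝ) ≤ (r : ℝ) ^ (r + 4) := by
          calc (r : ℝ) = (r : ℝ) ^ 1 := (pow_one _).symm
            _ ≤ (r : ℝ) ^ (r + 4) := pow_le_pow_right₀ (by linarith) (by omega)
        have a2 : (r : ℝ) * c ≤ (r : ℝ) ^ (r + 4) * c := mul_le_mul_of_nonneg_right a1 hc0.le
        have a3 : (r : ℝ) * 1 ≤ r * c := mul_le_mul_of_nonneg_left hcR hr0.le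
        have a4 : 1 * (c : ℝ) ≤ r * c := mul_le_mul_of_nonneg_right (by linarith) hc0.le
        have a5 : (0 : ℝ) ≤ (r : ℝ) * c := by positivity
        linarith
      linarith
    have h5 : (t : ℝ) / (r * c) ≤ L := by
      rw [div_le_iff₀ (by positivity)]
      have h40 := h4.trans h3
      rw [div_le_iff₀ hr0] at h40
      linarith
    have h6 : (2 * (r : ℝ) * c) ≤ t := by
      have : 2 * (r * c) ≤ t := by omega
      have h7 : (2 * (r * c) : ℝ) ≤ t := by exact_mod_cast this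
      linarith
    have h7 : (1 : ℝ) ≤ t / (2 * (r : ℝ) * c) := by
      rw [le_div_iff₀ (by positivity)]; linarith
    have h8 : (t : ℝ) / (r * c) = 2 * (t / (2 * (r : ℝ) * c)) := by field_simp
    have h9 : lam * N = N - N / (2 * (r : ℝ) * c) := by rw [hlam]; ring
    have h10 : (N : ℝ) / (2 * (r : ℝ) * c) ≤ t / (2 * (r : ℝ) * c) := by
      apply div_le_div_of_nonneg_right _ (by positivity)
      linarith
    rw [h9]
    linarith
  have hbk : ∀ k : Fin r, k.val + 1 < r →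
      (((Ico c t).filter (fun j => χ (v j) ≤ k)).card : ℝ) ≤ ((k.val : ℝ) + 1) * N / r - C - c := by
    intro k hk
    have h3 : ((Ico c t).filter (fun j => χ (v j) ≤ k)).card = ∑ i ∈ Iic k, (b ∘ σ) i := by
      rw [← hfib (Iic k)]
      congr 1
      apply filter_congr
      intro j _
      rw [mem_Iic]
    have h4 := mono_avg (b ∘ σ) hmono k l hk hlr
    rw [h3, ← hNR]
    apply num_hb hr hc hk hBl
    have h5 : ((r : ℝ) - 1) = ((r - 1 : ℕ) : ℝ) := by
      rw [Nat.cast_sub (by omega)]; simp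
    rw [h5]
    have h6 : (((r - 1) * ∑ i ∈ Iic k, (b ∘ σ) i : ℕ) : ℝ)
        ≤ (((k.val + 1) * ∑ i ∈ Iio l, (b ∘ σ) i : ℕ) : ℝ) := by exact_mod_cast h4
    have h7 : ((∑ i ∈ Iio l, (b ∘ σ) i : ℕ) : ℝ) = (t : ℝ) - c - (((b ∘ σ) l : ℕ) : ℝ) := by
      have h8 : ∑ k ∈ Iio l, (b ∘ σ) k + (b ∘ σ) l + c = t := by omega
      have h9 : ((∑ k ∈ Iio l, (b ∘ σ) k : ℕ) : ℝ) + (((b ∘ σ) l : ℕ) : ℝ) + (c : ℝ) = t := by
        exact_mod_cast h8
      linarith
    rw [← h7]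
    calc ((r - 1 : ℕ) : ℝ) * ((∑ i ∈ Iic k, (b ∘ σ) i : ℕ) : ℝ)
        = (((r - 1) * ∑ i ∈ Iic k, (b ∘ σ) i : ℕ) : ℝ) := by push_cast; ring
      _ ≤ (((k.val + 1) * ∑ i ∈ Iio l, (b ∘ σ) i : ℕ) : ℝ) := h6
      _ = _ := by push_cast; ring
  obtain ⟨F, hF1, hF2⟩ := embed_all (t := t) (lam := lam) hr hH G π hGne hGH hval hrich le_rfl
    (by linarith) htN hctle hNpos e he hprop χ hχinj v att
    (fun j h1 h2 => (hva j h1 h2).1) (fun j h1 h2 => (hva j h1 h2).2.1)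
    (fun j h1 h2 => (hva j h1 h2).2.2.1) (fun j h1 h2 => (hva j h1 h2).2.2.2)
    hbk q hqc hstar
  exact ⟨F, hF1, fun i hi => hHH (hF2 i hi)⟩

end Pool.Agent.TH471.KT
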